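import Pool.Agent.H370R2.MV
import Pool.Agent.H307R2.LU

/-! Mean square of the zeta function to the right of `Re s = 4 / 5`. -/

set_option autoImplicit false
set_option maxHeartbeats 4000000

open Complex MeasureTheory Filter Topology Set

namespace Pool.Agent.W5h25.ML

noncomputable section

/-- dyadic blocks of the Dirichlet series -/
def blk (σ : ℝ) (j : ℕ) (t : ℝ) : ℂ := ∑ n ∈ Finset.Ico (2 ^ j : ℕ) (2 ^ (j + 1)), (n : ℂ) ^ (-((σ : ℂ) + t * I))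

theorem blk_cont (σ : ℝ) (j : ℕ) : Continuous (blk σ j) := by
  unfold blk
  refine continuous_finset_sum _ fun n hn => ?_
  rw [Finset.mem_Ico] at hn
  have hn0 : (n : ℂ) ≠ 0 := by
    have : 0 < 2 ^ j := by positivity
    exact_mod_cast (by omega : n ≠ 0)
  exact Continuous.const_cpow (by fun_prop) (Or.inl hn0)

theorem blk_ms (σ : ℝ) (hσ : 4 / 5 ≤ σ) (j : ℕ) (U : ℝ) (hU : 0 ≤ U) :
    ∫ t in U..(5 * U), ‖blk σ j t‖ ^ 2 ≤ 4 * U + 16 * (j + 2) * ((2 : ℝ) ^ j) ^ (2 / 5 : ℝ) := by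
  set X : ℕ := 2 ^ (j + 1) with hX
  set b : ℕ → ℂ := fun n => if 2 ^ j ≤ n ∧ n < 2 ^ (j + 1) then (n : ℂ) ^ (-(σ : ℂ)) else 0 with hb
  have h1 := H370.mean_value b X U (5 * U) (by linarith)
  have h2 : ∀ t : ℝ, blk σ j t = ∑ n ∈ Finset.Icc 1 X, b n * (n : ℂ) ^ (-(t : ℂ) * I) := by
    intro t
    unfold blk
    have hsub : Finset.Ico (2 ^ j) (2 ^ (j + 1)) ⊆ Finset.Icc 1 X := by
      intro n hn
      rw [Finset.mem_Ico] at hn
      rw [Finset.mem_Icc]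
      have : 0 < 2 ^ j := by positivity
      omega
    rw [← Finset.sum_subset hsub]
    · refine Finset.sum_congr rfl fun n hn => ?_
      rw [Finset.mem_Ico] at hn
      have hn0 : (n : ℂ) ≠ 0 := by
        have : 0 < 2 ^ j := by positivity
        exact_mod_cast (by omega : n ≠ 0)
      simp only [hb]
      rw [if_pos hn, ← Complex.cpow_add _ _ hn0]
      congr 1
      ring
    · intro n _ hn
      rw [Finset.mem_Ico] at hn
      simp only [hb]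
      rw [if_neg hn, zero_mul]
  have h3 : ∑ n ∈ Finset.Icc 1 X, ‖b n‖ ^ 2 ≤ ((2 : ℝ) ^ j) ^ (-(3 / 5) : ℝ) := by
    have hsub : Finset.Ico (2 ^ j) (2 ^ (j + 1)) ⊆ Finset.Icc 1 X := by
      intro n hn
      rw [Finset.mem_Ico] at hn
      rw [Finset.mem_Icc]
      have : 0 < 2 ^ j := by positivity
      omega
    rw [← Finset.sum_subset hsub]
    · have h4 : ∀ n ∈ Finset.Ico (2 ^ j) (2 ^ (j + 1)), ‖b n‖ ^ 2 ≤ ((2 : ℝ) ^ j) ^ (-(8 / 5) : ℝ) := by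
        intro n hn
        rw [Finset.mem_Ico] at hn
        have h20 : (1 : ℝ) ≤ (2 : ℝ) ^ j := one_le_pow₀ (by norm_num)
        have hn1 : (2 : ℝ) ^ j ≤ n := by exact_mod_cast hn.1
        have hn0 : 0 < n := by
          have : 0 < 2 ^ j := by positivity
          omega
        simp only [hb]
        rw [if_pos hn]
        have e1 : ‖(n : ℂ) ^ (-(σ : ℂ))‖ = (n : ℝ) ^ (-σ) := by
          rw [Complex.norm_natCast_cpow_of_pos hn0]
          simp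
        rw [e1, ← Real.rpow_natCast, ← Real.rpow_mul (by positivity)]
        calc (n : ℝ) ^ (-σ * ((2 : ℕ) : ℝ)) ≤ (n : ℝ) ^ (-(8 / 5) : ℝ) := by
              apply Real.rpow_le_rpow_of_exponent_le (h20.trans hn1)
              push_cast; linarith
          _ ≤ ((2 : ℝ) ^ j) ^ (-(8 / 5) : ℝ) :=
              Real.rpow_le_rpow_of_nonpos (by linarith) hn1 (by norm_num)
      refine (Finset.sum_le_sum h4).trans (le_of_eq ?_)
      rw [Finset.sum_const, Nat.card_Ico, nsmul_eq_mul]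
      have e2 : ((2 ^ (j + 1) - 2 ^ j : ℕ) : ℝ) = (2 : ℝ) ^ j := by
        rw [pow_succ]
        have : 2 ^ j * 2 - 2 ^ j = 2 ^ j := by omega
        rw [this]
        push_cast; ring
      rw [e2]
      nth_rw 1 [← Real.rpow_one ((2 : ℝ) ^ j)]
      rw [← Real.rpow_add (by positivity)]
      norm_num
    · intro n _ hn
      rw [Finset.mem_Ico] at hn
      simp only [hb]
      rw [if_neg hn]
      simp
  have h5 : Real.log X ≤ j + 1 := by
    rw [hX]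
    push_cast
    rw [Real.log_pow]
    have := Real.log_two_lt_d9
    push_cast
    nlinarith [Real.log_pos (show (1 : ℝ) < 2 by norm_num), (Nat.cast_nonneg j : (0 : ℝ) ≤ j)]
  have h6 : (0 : ℝ) ≤ Real.log X := Real.log_natCast_nonneg X
  have e3 : (X : ℝ) = 2 * 2 ^ j := by rw [hX]; push_cast; ring
  have h20 : (1 : ℝ) ≤ (2 : ℝ) ^ j := one_le_pow₀ (by norm_num)
  have e4 : (∫ t in U..(5 * U), ‖blk σ j t‖ ^ 2) =
      ∫ t in U..(5 * U), ‖∑ n ∈ Finset.Icc 1 X, b n * (n : ℂ) ^ (-(t : ℂ) * I)‖ ^ 2 := by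
    congr 1
    funext t
    rw [h2 t]
  rw [e4]
  refine h1.trans ?_
  have h7 : 5 * U - U + 8 * X * (1 + Real.log X) ≤ 4 * U + 16 * (j + 2) * 2 ^ j := by
    have e5 : 8 * (X : ℝ) * (1 + Real.log X) ≤ 8 * X * (j + 2) :=
      mul_le_mul_of_nonneg_left (by linarith) (by positivity)
    have e6 : 8 * (X : ℝ) * (j + 2) = 16 * (j + 2) * 2 ^ j := by rw [e3]; ring
    linarith
  have h9 : ((2 : ℝ) ^ j) ^ (-(3 / 5) : ℝ) ≤ 1 := Real.rpow_le_one_of_one_le_of_nonpos h20 (by norm_num)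
  have h10 : (0 : ℝ) ≤ ((2 : ℝ) ^ j) ^ (-(3 / 5) : ℝ) := by positivity
  have h11 : (2 : ℝ) ^ j * ((2 : ℝ) ^ j) ^ (-(3 / 5) : ℝ) = ((2 : ℝ) ^ j) ^ (2 / 5 : ℝ) := by
    nth_rw 1 [← Real.rpow_one ((2 : ℝ) ^ j)]
    rw [← Real.rpow_add (by positivity)]
    norm_num
  have h12 : (0 : ℝ) ≤ ∑ n ∈ Finset.Icc 1 X, ‖b n‖ ^ 2 := Finset.sum_nonneg fun _ _ => by positivity
  calc (5 * U - U + 8 * X * (1 + Real.log X)) * ∑ n ∈ Finset.Icc 1 X, ‖b n‖ ^ 2
      ≤ (4 * U + 16 * (j + 2) * 2 ^ j) * ((2 : ℝ) ^ j) ^ (-(3 / 5) : ℝ) :=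
        mul_le_mul h7 h3 h12 (by positivity)
    _ = 4 * U * ((2 : ℝ) ^ j) ^ (-(3 / 5) : ℝ) + 16 * (j + 2) * ((2 : ℝ) ^ j * ((2 : ℝ) ^ j) ^ (-(3 / 5) : ℝ)) := by ring
    _ ≤ 4 * U + 16 * (j + 2) * ((2 : ℝ) ^ j) ^ (2 / 5 : ℝ) := by
        rw [h11]
        nlinarith

/-- the sum of all blocks -/
theorem blk_sum (σ : ℝ) (J : ℕ) (t : ℝ) :
    ∑ n ∈ Finset.Icc 1 (2 ^ J - 1 : ℕ), (n : ℂ) ^ (-((σ : ℂ) + t * I)) = ∑ j ∈ Finset.range J, blk σ j t := by
  induction J with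
  | zero => simp
  | succ J ih =>
    rw [Finset.sum_range_succ, ← ih]
    unfold blk
    have h1 : 0 < 2 ^ J := by positivity
    have h2 : 2 ^ (J + 1) = 2 * 2 ^ J := by ring
    have e : Finset.Icc 1 (2 ^ (J + 1) - 1 : ℕ) = Finset.Icc 1 (2 ^ J - 1) ∪ Finset.Ico (2 ^ J) (2 ^ (J + 1)) := by
      ext n
      simp only [Finset.mem_union, Finset.mem_Icc, Finset.mem_Ico]
      omega
    rw [e, Finset.sum_union]
    rw [Finset.disjoint_left]
    intro n hn hn'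
    rw [Finset.mem_Icc] at hn
    rw [Finset.mem_Ico] at hn'
    omega

theorem exJ (U : ℝ) (hU : 3 ≤ U) : ∃ J : ℕ, U ^ 2 ≤ (2 : ℝ) ^ J ∧ (2 : ℝ) ^ J ≤ 2 * U ^ 2 ∧ 1 ≤ J ∧ (J : ℝ) ≤ 4 * Real.log U := by
  obtain ⟨n, hn1, hn2⟩ := exists_nat_pow_near (show (1 : ℝ) ≤ U ^ 2 by nlinarith) (show (1 : ℝ) < 2 by norm_num)
  refine ⟨n + 1, hn2.le, ?_, by omega, ?_⟩
  · rw [pow_succ]; linarith
  · have h1 : Real.log ((2 : ℝ) ^ n) ≤ Real.log (U ^ 2) := Real.log_le_log (by positivity) hn1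
    rw [Real.log_pow, Real.log_pow] at h1
    have h2 := Real.log_two_gt_d9
    have h3 : 1 ≤ Real.log U := by
      rw [Real.le_log_iff_exp_le (by linarith)]
      have := Real.exp_one_lt_d9
      linarith
    push_cast at h1 ⊢
    have h4 : (0 : ℝ) ≤ n := Nat.cast_nonneg n
    nlinarith

/-- mean square of the partial sum -/
theorem sum_ms (σ : ℝ) (hσ : 4 / 5 ≤ σ) (U : ℝ) (hU : 3 ≤ U) (J : ℕ) (hJ : (2 : ℝ) ^ J ≤ 2 * U ^ 2) (hJ1 : 1 ≤ J) :
    ∫ t in U..(5 * U), ‖∑ n ∈ Finset.Icc 1 (2 ^ J - 1 : ℕ), (n : ℂ) ^ (-((σ : ℂ) + t * I))‖ ^ 2 ≤ 68 * J ^ 3 * U := by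
  have h1 : ∀ t : ℝ, ‖∑ n ∈ Finset.Icc 1 (2 ^ J - 1 : ℕ), (n : ℂ) ^ (-((σ : ℂ) + t * I))‖ ^ 2 ≤
      J * ∑ j ∈ Finset.range J, ‖blk σ j t‖ ^ 2 := by
    intro t
    rw [blk_sum]
    have h2 : ‖∑ j ∈ Finset.range J, blk σ j t‖ ≤ ∑ j ∈ Finset.range J, ‖blk σ j t‖ := norm_sum_le _ _
    have h3 := sq_sum_le_card_mul_sum_sq (s := Finset.range J) (f := fun j => ‖blk σ j t‖)
    rw [Finset.card_range] at h3
    exact (pow_le_pow_left₀ (norm_nonneg _) h2 2).trans h3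
  have hc : ∀ j, Continuous (fun t : ℝ => ‖blk σ j t‖ ^ 2) := fun j => (blk_cont σ j).norm.pow 2
  have hc2 : Continuous (fun t : ℝ => ‖∑ n ∈ Finset.Icc 1 (2 ^ J - 1 : ℕ), (n : ℂ) ^ (-((σ : ℂ) + t * I))‖ ^ 2) := by
    simp only [blk_sum]
    have : Continuous (fun t : ℝ => ∑ j ∈ Finset.range J, blk σ j t) :=
      continuous_finset_sum _ fun j _ => blk_cont σ j
    exact this.norm.pow 2
  calc ∫ t in U..(5 * U), ‖∑ n ∈ Finset.Icc 1 (2 ^ J - 1 : ℕ), (n : ℂ) ^ (-((σ : ℂ) + t * I))‖ ^ 2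
      ≤ ∫ t in U..(5 * U), J * ∑ j ∈ Finset.range J, ‖blk σ j t‖ ^ 2 := by
        apply intervalIntegral.integral_mono_on (by linarith)
        · exact hc2.intervalIntegrable _ _
        · exact (continuous_const.mul (continuous_finset_sum _ fun j _ => hc j)).intervalIntegrable _ _
        · intro t _
          exact h1 t
    _ = J * ∑ j ∈ Finset.range J, ∫ t in U..(5 * U), ‖blk σ j t‖ ^ 2 := by
        rw [intervalIntegral.integral_const_mul, intervalIntegral.integral_finset_sum]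
        intro j _
        exact (hc j).intervalIntegrable _ _
    _ ≤ J * ∑ j ∈ Finset.range J, ((36 + 32 * J) * U) := by
        refine mul_le_mul_of_nonneg_left (Finset.sum_le_sum fun j hj => ?_) (Nat.cast_nonneg J)
        rw [Finset.mem_range] at hj
        refine (blk_ms σ hσ j U (by linarith)).trans ?_
        have e1 : ((2 : ℝ) ^ j) ^ (2 / 5 : ℝ) ≤ 2 * U := by
          have e2 : (2 : ℝ) ^ j ≤ 2 * U ^ 2 := (pow_le_pow_right₀ (by norm_num) hj.le).trans hJ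
          have e3 : (2 : ℝ) ^ j ≤ (2 * U) ^ 2 := by nlinarith
          calc ((2 : ℝ) ^ j) ^ (2 / 5 : ℝ) ≤ ((2 * U) ^ 2) ^ (2 / 5 : ℝ) :=
                Real.rpow_le_rpow (by positivity) e3 (by norm_num)
            _ = (2 * U) ^ (4 / 5 : ℝ) := by
                rw [← Real.rpow_natCast, ← Real.rpow_mul (by linarith)]
                norm_num
            _ ≤ (2 * U) ^ (1 : ℝ) := Real.rpow_le_rpow_of_exponent_le (by linarith) (by norm_num)
            _ = 2 * U := Real.rpow_one _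
        have e4 : (j : ℝ) ≤ J := by exact_mod_cast hj.le
        have e5 : (0 : ℝ) ≤ j := Nat.cast_nonneg j
        have e6 : (1 : ℝ) ≤ J := by exact_mod_cast hJ1
        have e8 : (j : ℝ) + 1 ≤ J := by exact_mod_cast hj
        have e7 : 16 * ((j : ℝ) + 2) * ((2 : ℝ) ^ j) ^ (2 / 5 : ℝ) ≤ 16 * ((J : ℝ) + 1) * (2 * U) := by
          apply mul_le_mul (by linarith) e1 (by positivity) (by positivity)
        nlinarith
    _ ≤ 68 * J ^ 3 * U := by
        rw [Finset.sum_const, Finset.card_range, nsmul_eq_mul]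
        have e6 : (1 : ℝ) ≤ J := by exact_mod_cast hJ1
        have e7 : (36 + 32 * (J : ℝ)) ≤ 68 * J := by linarith
        have e8 : 0 ≤ (J : ℝ) * J * U := by positivity
        nlinarith [mul_le_mul_of_nonneg_left e7 e8]

/-- comparison with zeta -/
theorem zeta_cmp (σ : ℝ) (hσ : 4 / 5 ≤ σ) (U : ℝ) (hU : 3 ≤ U) (J : ℕ) (hJ0 : U ^ 2 ≤ (2 : ℝ) ^ J)
    (hJ : (2 : ℝ) ^ J ≤ 2 * U ^ 2) (t : ℝ) (ht : U ≤ t) (ht5 : t ≤ 5 * U) :
    ‖riemannZeta ((σ : ℂ) + t * I)‖ ≤ ‖∑ n ∈ Finset.Icc 1 (2 ^ J - 1 : ℕ), (n : ℂ) ^ (-((σ : ℂ) + t * I))‖ + 26 := by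
  set N : ℕ := 2 ^ J - 1 with hN
  set s : ℂ := (σ : ℂ) + t * I with hs
  have hre : s.re = σ := by simp [hs]
  have him : s.im = t := by simp [hs]
  have h2J : (1 : ℝ) ≤ (2 : ℝ) ^ J := one_le_pow₀ (by norm_num)
  have hNr : (N : ℝ) = 2 ^ J - 1 := by
    rw [hN, Nat.cast_sub Nat.one_le_two_pow]
    push_cast; ring
  have hNlo : U ^ 2 / 2 ≤ N := by rw [hNr]; nlinarith
  have hN1 : 1 ≤ N := by
    have : (1 : ℝ) ≤ N := by nlinarith
    exact_mod_cast this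
  have hN1r : (1 : ℝ) ≤ N := by exact_mod_cast hN1
  have hs1 : s ≠ 1 := by
    intro h
    rw [h] at him
    simp at him
    linarith
  have h := Pool.Agent.H307R2.zeta_eq hN1 (s := s) (by rw [hre]; linarith) hs1
  rw [h]
  have g1 : ‖(N : ℂ) ^ (1 - s) / (s - 1)‖ ≤ 2 := by
    rw [norm_div]
    have e1 : ‖(N : ℂ) ^ (1 - s)‖ ≤ 2 * U := by
      rw [Complex.norm_natCast_cpow_of_pos (by omega)]
      have e2 : (1 - s).re = 1 - σ := by simp [hre]
      rw [e2]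
      calc (N : ℝ) ^ (1 - σ) ≤ (N : ℝ) ^ (1 / 2 : ℝ) := Real.rpow_le_rpow_of_exponent_le hN1r (by linarith)
        _ ≤ ((2 * U) ^ 2) ^ (1 / 2 : ℝ) := Real.rpow_le_rpow (by linarith) (by rw [hNr]; nlinarith) (by norm_num)
        _ = 2 * U := by
            rw [← Real.rpow_natCast, ← Real.rpow_mul (by linarith)]
            norm_num
    have e3 : U ≤ ‖s - 1‖ := by
      have e4 := Complex.abs_im_le_norm (s - 1)
      have e5 : (s - 1).im = t := by simp [him]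
      rw [e5, abs_of_nonneg (by linarith)] at e4
      linarith
    rw [div_le_iff₀ (by linarith)]
    nlinarith
  have g2 : ‖s * Pool.Agent.H307R2.TM N Pool.Agent.H307R2.Ez s‖ ≤ 24 := by
    rw [norm_mul]
    have e1 := Pool.Agent.H307R2.TM_norm_le hN1 Pool.Agent.H307R2.Ez_norm_le (s := s) (by rw [hre]; linarith)
    rw [one_mul, hre] at e1
    have e2 : ‖s‖ ≤ σ + t := by
      have := Complex.norm_le_abs_re_add_abs_im s
      rw [hre, him, abs_of_nonneg (by linarith), abs_of_nonneg (by linarith)] at this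
      exact this
    have e3 : (N : ℝ) ^ (-σ) ≤ 2 / U := by
      calc (N : ℝ) ^ (-σ) ≤ (N : ℝ) ^ (-(1 / 2) : ℝ) := Real.rpow_le_rpow_of_exponent_le hN1r (by linarith)
        _ ≤ ((U / 2) ^ 2) ^ (-(1 / 2) : ℝ) :=
            Real.rpow_le_rpow_of_nonpos (by positivity) (by nlinarith) (by norm_num)
        _ = (U / 2)⁻¹ := by
            rw [← Real.rpow_natCast, ← Real.rpow_mul (by linarith)]
            norm_num [Real.rpow_neg_one]
        _ = 2 / U := by rw [inv_div]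
    have e4 : 0 ≤ (N : ℝ) ^ (-σ) / σ := by positivity
    have hσ0 : 0 < σ := by linarith
    calc ‖s‖ * ‖Pool.Agent.H307R2.TM N Pool.Agent.H307R2.Ez s‖ ≤ (σ + t) * ((N : ℝ) ^ (-σ) / σ) :=
          mul_le_mul e2 e1 (norm_nonneg _) (by linarith)
      _ ≤ (σ + t) * ((2 / U) / σ) := by
          apply mul_le_mul_of_nonneg_left _ (by linarith)
          exact div_le_div_of_nonneg_right e3 hσ0.le
      _ = 2 / U + 2 * t / (U * σ) := by field_simp
      _ ≤ 24 := by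
          have e5 : 2 / U ≤ 1 := by rw [div_le_one (by linarith)]; linarith
          have e6 : 2 * t / (U * σ) ≤ 23 := by
            rw [div_le_iff₀ (by positivity)]
            nlinarith
          linarith
  calc ‖∑ n ∈ Finset.Icc 1 N, (n : ℂ) ^ (-s) + (N : ℂ) ^ (1 - s) / (s - 1) +
        s * Pool.Agent.H307R2.TM N Pool.Agent.H307R2.Ez s‖
      ≤ ‖∑ n ∈ Finset.Icc 1 N, (n : ℂ) ^ (-s)‖ + ‖(N : ℂ) ^ (1 - s) / (s - 1)‖ +
        ‖s * Pool.Agent.H307R2.TM N Pool.Agent.H307R2.Ez s‖ := norm_add₃_le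
    _ ≤ _ := by linarith

/-- **mean square of zeta** -/
theorem zeta_ms : ∃ C : ℝ, 0 < C ∧ ∀ U : ℝ, 3 ≤ U → ∀ σ : ℝ, 4 / 5 ≤ σ →
    ∫⁻ t in Icc U (5 * U), ENNReal.ofReal (‖riemannZeta ((σ : ℂ) + t * I)‖ ^ 2) ≤
      ENNReal.ofReal (C * (U * Real.log U ^ 3)) := by
  refine ⟨2 * 68 * 64 + 2 * 26 ^ 2 * 4, by norm_num, fun U hU σ hσ => ?_⟩
  obtain ⟨J, hJ0, hJ, hJ1, hJl⟩ := exJ U hU
  have h1 := sum_ms σ hσ U hU J hJ hJ1
  set S : ℝ → ℂ := fun t => ∑ n ∈ Finset.Icc 1 (2 ^ J - 1 : ℕ), (n : ℂ) ^ (-((σ : ℂ) + t * I)) with hS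
  have hc2 : Continuous (fun t : ℝ => ‖S t‖ ^ 2) := by
    simp only [hS, blk_sum]
    have : Continuous (fun t : ℝ => ∑ j ∈ Finset.range J, blk σ j t) :=
      continuous_finset_sum _ fun j _ => blk_cont σ j
    exact this.norm.pow 2
  have hlog : 1 ≤ Real.log U := by
    rw [Real.le_log_iff_exp_le (by linarith)]
    have := Real.exp_one_lt_d9
    linarith
  have h2 : ∀ t ∈ Icc U (5 * U), ENNReal.ofReal (‖riemannZeta ((σ : ℂ) + t * I)‖ ^ 2) ≤
      ENNReal.ofReal (2 * ‖S t‖ ^ 2 + 2 * 26 ^ 2) := by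
    intro t ht
    apply ENNReal.ofReal_le_ofReal
    have h3 := zeta_cmp σ hσ U hU J hJ0 hJ t ht.1 ht.2
    have h4 : ‖riemannZeta ((σ : ℂ) + t * I)‖ ^ 2 ≤ (‖S t‖ + 26) ^ 2 := pow_le_pow_left₀ (norm_nonneg _) h3 2
    nlinarith [sq_nonneg (‖S t‖ - 26)]
  refine (setLIntegral_mono' measurableSet_Icc h2).trans ?_
  have hci : IntegrableOn (fun t : ℝ => 2 * ‖S t‖ ^ 2 + 2 * 26 ^ 2) (Icc U (5 * U)) :=
    (Continuous.continuousOn (by fun_prop)).integrableOn_compact isCompact_Icc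
  rw [← ofReal_integral_eq_lintegral_ofReal hci (ae_of_all _ fun t => by positivity)]
  apply ENNReal.ofReal_le_ofReal
  rw [integral_Icc_eq_integral_Ioc, ← intervalIntegral.integral_of_le (by linarith)]
  rw [intervalIntegral.integral_add ((hc2.const_mul 2).intervalIntegrable _ _) (by simp), intervalIntegral.integral_const_mul,
    intervalIntegral.integral_const, smul_eq_mul]
  have h5 : (68 : ℝ) * J ^ 3 * U ≤ 68 * (4 * Real.log U) ^ 3 * U := by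
    have : (J : ℝ) ^ 3 ≤ (4 * Real.log U) ^ 3 := pow_le_pow_left₀ (Nat.cast_nonneg J) hJl 3
    nlinarith
  have h6 : 1 ≤ Real.log U ^ 3 := one_le_pow₀ hlog
  nlinarith

end

end Pool.Agent.W5h25.ML
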