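import Pool.Agent.H402R2.SubMean
import Pool.Agent.W5h25.ML.MS

/-! Area integrals of the square of the zeta function. -/

set_option autoImplicit false
set_option maxHeartbeats 4000000

open Complex MeasureTheory Filter Topology Set Metric

namespace Pool.Agent.W5h25.ML

noncomputable section

def fz (w : ℂ) : ENNReal := ENNReal.ofReal (‖riemannZeta w‖ ^ 2)

theorem zeta_meas : Measurable riemannZeta := by
  apply measurable_of_continuousOn_compl_singleton (1 : ℂ)
  intro s hs
  exact (differentiableAt_riemannZeta hs).continuousAt.continuousWithinAt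

theorem fz_meas : Measurable fz := by
  unfold fz
  exact (zeta_meas.norm.pow_const 2).ennreal_ofReal

theorem area_pt (z : ℂ) (hz : 2 ≤ z.im) :
    ENNReal.ofReal (‖riemannZeta z‖ ^ 2 * (Real.pi / 256)) ≤ ∫⁻ w in ball z (1 / 16), fz w := by
  have h1 := Pool.Agent.H402R2.SubMean.rpow_mul_le_lintegral (g := riemannZeta) (w := z) (ρ := 1 / 16) (p := 2) (by norm_num) (by norm_num) (by
    intro s hs
    rw [mem_ball, dist_eq_norm] at hs
    have h2 := Complex.abs_im_le_norm (s - z)
    have h3 := abs_le.1 (h2.trans hs.le)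
    rw [Complex.sub_im] at h3
    refine (differentiableAt_riemannZeta ?_).differentiableWithinAt
    rintro rfl
    rw [Complex.one_im] at h3
    linarith [h3.1])
  have e1 : ‖riemannZeta z‖ ^ (2 : ℝ) * (Real.pi * (1 / 16) ^ 2) = ‖riemannZeta z‖ ^ 2 * (Real.pi / 256) := by
    rw [Real.rpow_two]
    ring
  rw [e1] at h1
  refine h1.trans (le_of_eq ?_)
  refine lintegral_congr fun w => ?_
  unfold fz
  rw [← ofReal_norm_eq_enorm, ENNReal.ofReal_rpow_of_nonneg (norm_nonneg _) (by norm_num), Real.rpow_two]

/-- a rectangle -/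
def Rect (a b U V : ℝ) : Set ℂ := {w | (a ≤ w.re ∧ w.re ≤ b) ∧ U ≤ w.im ∧ w.im ≤ V}

theorem Rect_meas (a b U V : ℝ) : MeasurableSet (Rect a b U V) := by
  unfold Rect
  have h1 : MeasurableSet {w : ℂ | a ≤ w.re} := measurableSet_le measurable_const Complex.measurable_re
  have h2 : MeasurableSet {w : ℂ | w.re ≤ b} := measurableSet_le Complex.measurable_re measurable_const
  have h3 : MeasurableSet {w : ℂ | U ≤ w.im} := measurableSet_le measurable_const Complex.measurable_im
  have h4 : MeasurableSet {w : ℂ | w.im ≤ V} := measurableSet_le Complex.measurable_im measurable_const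
  exact (h1.inter h2).inter (h3.inter h4)

theorem rect_int (a b : ℝ) (hab : a ≤ b) (ha : 4 / 5 ≤ a) : ∃ C : ℝ, 0 < C ∧ ∀ U : ℝ, 3 ≤ U →
    ∫⁻ w in Rect a b U (5 * U), fz w ≤ ENNReal.ofReal (C * (U * Real.log U ^ 3)) := by
  obtain ⟨C, hC, h⟩ := zeta_ms
  refine ⟨(b - a + 1) * C, by nlinarith, fun U hU => ?_⟩
  have hlog : 0 ≤ Real.log U := Real.log_nonneg (by linarith)
  have e1 : ∫⁻ w in Rect a b U (5 * U), fz w =
      ∫⁻ σ in Icc a b, ∫⁻ t in Icc U (5 * U), fz ((σ : ℂ) + t * I) := by
    rw [← lintegral_indicator (Rect_meas _ _ _ _)]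
    have hmp := Complex.volume_preserving_equiv_real_prod.symm
    rw [← hmp.lintegral_comp (fz_meas.indicator (Rect_meas _ _ _ _))]
    have hm : Measurable (fun p : ℝ × ℝ => (Rect a b U (5 * U)).indicator fz (Complex.measurableEquivRealProd.symm p)) :=
      (fz_meas.indicator (Rect_meas _ _ _ _)).comp Complex.measurableEquivRealProd.symm.measurable
    rw [Measure.volume_eq_prod, lintegral_prod _ hm.aemeasurable]
    rw [← lintegral_indicator measurableSet_Icc]
    refine lintegral_congr fun σ => ?_
    by_cases hσ : σ ∈ Icc a b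
    · rw [indicator_of_mem hσ, ← lintegral_indicator measurableSet_Icc]
      refine lintegral_congr fun t => ?_
      have e2 : Complex.measurableEquivRealProd.symm (σ, t) = (σ : ℂ) + t * I := by
        apply Complex.ext <;> simp
      rw [e2]
      by_cases ht : t ∈ Icc U (5 * U)
      · rw [indicator_of_mem ht, indicator_of_mem]
        unfold Rect
        simp only [Set.mem_setOf_eq]
        simpa using ⟨hσ, ht⟩
      · rw [indicator_of_notMem ht, indicator_of_notMem]
        unfold Rect
        intro h1
        apply ht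
        simpa using h1.2
    · rw [indicator_of_notMem hσ]
      rw [lintegral_eq_zero_iff' (by
        exact (hm.comp (measurable_const.prodMk measurable_id)).aemeasurable)]
      refine Filter.Eventually.of_forall fun t => ?_
      have e2 : Complex.measurableEquivRealProd.symm (σ, t) = (σ : ℂ) + t * I := by
        apply Complex.ext <;> simp
      show (Rect a b U (5 * U)).indicator fz (Complex.measurableEquivRealProd.symm (σ, t)) = 0
      rw [e2, indicator_of_notMem]
      unfold Rect
      intro h1
      apply hσ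
      simpa using h1.1
  rw [e1]
  have h2 : ∀ σ ∈ Icc a b, ∫⁻ t in Icc U (5 * U), fz ((σ : ℂ) + t * I) ≤ ENNReal.ofReal (C * (U * Real.log U ^ 3)) :=
    fun σ hσ => h U hU σ (ha.trans hσ.1)
  refine (setLIntegral_mono' measurableSet_Icc h2).trans ?_
  rw [setLIntegral_const, Real.volume_Icc, ← ENNReal.ofReal_mul (by positivity)]
  apply ENNReal.ofReal_le_ofReal
  have : 0 ≤ C * (U * Real.log U ^ 3) := by positivity
  nlinarith

end

end Pool.Agent.W5h25.ML
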