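import Pool.Agent.W5h25.ML.AR
import Pool.Agent.W5h80.JO.Z

/-! Functions of the size of `ζ(2 s)` do not vanish at all zeros of the critical line. -/

set_option autoImplicit false
set_option maxHeartbeats 4000000

open Complex MeasureTheory Filter Topology Set Metric

namespace Pool.Agent.W5h25.ML

noncomputable section

/-- the rectangle around a disc -/
def RR (σ0 : ℝ) (L k : ℕ) : Set ℂ := Rect (4 / 5) (4 * σ0) (2 * k - L) (2 * k + L)

theorem RR_meas (σ0 : ℝ) (L k : ℕ) : MeasurableSet (RR σ0 L k) := Rect_meas _ _ _ _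

theorem overlap (L : ℕ) (F : Finset ℕ) (y : ℝ) :
    (F.filter (fun k : ℕ => (2 * k - L : ℝ) ≤ y ∧ y ≤ 2 * k + L)).card ≤ L + 1 := by
  classical
  rcases (F.filter (fun k : ℕ => (2 * k - L : ℝ) ≤ y ∧ y ≤ 2 * k + L)).eq_empty_or_nonempty with h | h
  · rw [h]; simp
  · set G := F.filter (fun k : ℕ => (2 * k - L : ℝ) ≤ y ∧ y ≤ 2 * k + L) with hG
    set k0 := G.min' h with hk0
    have h0 : k0 ∈ G := Finset.min'_mem _ _
    rw [hG, Finset.mem_filter] at h0
    have hsub : G ⊆ Finset.Icc k0 (k0 + L) := by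
      intro k hk
      rw [Finset.mem_Icc]
      refine ⟨Finset.min'_le _ _ hk, ?_⟩
      rw [hG, Finset.mem_filter] at hk
      have h1 : (2 * k - L : ℝ) ≤ 2 * k0 + L := hk.2.1.trans h0.2.2
      have h2 : (k : ℝ) ≤ k0 + L := by linarith
      exact_mod_cast h2
    refine (Finset.card_le_card hsub).trans ?_
    rw [Nat.card_Icc]
    omega

theorem disc_sum (σ0 : ℝ) (h0 : 4 ≤ σ0) : ∃ C : ℝ, 0 < C ∧ ∀ᶠ m : ℕ in atTop, ∃ Z : ℕ → ℝ,
    (∀ k, 0 ≤ Z k) ∧ (∀ k ∈ Finset.Ico m (2 * m), ∀ z ∈ closedBall ((σ0 : ℂ) + ((k + 1 / 2 : ℝ) : ℂ) * I) (σ0 - 1 / 2 + 1 / 16),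
      ‖riemannZeta (2 * z)‖ ^ 2 ≤ Z k) ∧
    ∑ k ∈ Finset.Ico m (2 * m), Z k ≤ C * (m * Real.log m ^ 3) := by
  classical
  obtain ⟨C, hC, hint⟩ := rect_int (4 / 5) (4 * σ0) (by linarith) le_rfl
  set L : ℕ := ⌈2 * σ0⌉₊ + 3 with hL
  have hLr : 2 * σ0 + 3 ≤ L := by
    rw [hL]; push_cast
    have := Nat.le_ceil (2 * σ0)
    linarith
  refine ⟨256 / Real.pi * ((L + 1) * C), by positivity, ?_⟩
  filter_upwards [eventually_ge_atTop (L + 3)] with m hm
  have hmL : (L : ℝ) + 3 ≤ m := by exact_mod_cast hm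
  have hm3 : (3 : ℝ) ≤ m := by linarith [(Nat.cast_nonneg L : (0 : ℝ) ≤ L)]
  set A : ℕ → ENNReal := fun k => ∫⁻ w in RR σ0 L k, fz w with hA
  set W : ENNReal := ∫⁻ w in Rect (4 / 5) (4 * σ0) m (5 * m), fz w with hW
  have hWle : W ≤ ENNReal.ofReal (C * (m * Real.log m ^ 3)) := hint m hm3
  have hWfin : W ≠ ⊤ := ne_top_of_le_ne_top ENNReal.ofReal_ne_top hWle
  have hsub : ∀ k ∈ Finset.Ico m (2 * m), RR σ0 L k ⊆ Rect (4 / 5) (4 * σ0) m (5 * m) := by
    intro k hk w hw
    rw [Finset.mem_Ico] at hk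
    have h1 : (m : ℝ) ≤ k := by exact_mod_cast hk.1
    have h2 : (k : ℝ) ≤ 2 * m := by exact_mod_cast hk.2.le
    obtain ⟨g1, g2, g3⟩ := hw
    exact ⟨g1, by linarith, by linarith⟩
  have hAfin : ∀ k ∈ Finset.Ico m (2 * m), A k ≠ ⊤ := fun k hk =>
    ne_top_of_le_ne_top hWfin (lintegral_mono_set (hsub k hk))
  refine ⟨fun k => 256 / Real.pi * (A k).toReal, fun k => by positivity, ?_, ?_⟩
  · intro k hk z hz
    rw [mem_closedBall, dist_eq_norm] at hz
    have hk' := hk
    rw [Finset.mem_Ico] at hk'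
    have hkr : (m : ℝ) ≤ k := by exact_mod_cast hk'.1
    have hzi : |z.im - (k + 1 / 2)| ≤ σ0 - 1 / 2 + 1 / 16 := by
      have := (Complex.abs_im_le_norm (z - ((σ0 : ℂ) + ((k + 1 / 2 : ℝ) : ℂ) * I))).trans hz
      simpa using this
    have hzi' := abs_le.1 hzi
    have h1 := area_pt (2 * z) (by
      have : (2 * z).im = 2 * z.im := by simp
      rw [this]
      linarith [hzi'.1])
    have h2 : ball (2 * z) (1 / 16) ⊆ RR σ0 L k := by
      intro w hw
      rw [mem_ball, dist_eq_norm] at hw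
      have g0 : ‖w - 2 * ((σ0 : ℂ) + ((k + 1 / 2 : ℝ) : ℂ) * I)‖ ≤ 2 * σ0 - 13 / 16 := by
        have e : w - 2 * ((σ0 : ℂ) + ((k + 1 / 2 : ℝ) : ℂ) * I) =
            (w - 2 * z) + 2 * (z - ((σ0 : ℂ) + ((k + 1 / 2 : ℝ) : ℂ) * I)) := by ring
        rw [e]
        refine (norm_add_le _ _).trans ?_
        rw [norm_mul]
        simp only [Complex.norm_ofNat]
        linarith
      have g1 := abs_le.1 ((Complex.abs_re_le_norm _).trans g0)
      have g2 := abs_le.1 ((Complex.abs_im_le_norm _).trans g0)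
      have e1 : (w - 2 * ((σ0 : ℂ) + ((k + 1 / 2 : ℝ) : ℂ) * I)).re = w.re - 2 * σ0 := by simp
      have e2 : (w - 2 * ((σ0 : ℂ) + ((k + 1 / 2 : ℝ) : ℂ) * I)).im = w.im - 2 * (k + 1 / 2) := by simp
      rw [e1] at g1
      rw [e2] at g2
      exact ⟨⟨by linarith [g1.1], by linarith [g1.2]⟩, by linarith [g2.1], by linarith [g2.2]⟩
    have h3 : ENNReal.ofReal (‖riemannZeta (2 * z)‖ ^ 2 * (Real.pi / 256)) ≤ A k :=
      h1.trans (lintegral_mono_set h2)
    rw [ENNReal.ofReal_le_iff_le_toReal (hAfin k hk)] at h3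
    have hpi := Real.pi_pos
    calc ‖riemannZeta (2 * z)‖ ^ 2 = 256 / Real.pi * (‖riemannZeta (2 * z)‖ ^ 2 * (Real.pi / 256)) := by field_simp
      _ ≤ 256 / Real.pi * (A k).toReal := mul_le_mul_of_nonneg_left h3 (by positivity)
  · rw [← Finset.mul_sum, ← ENNReal.toReal_sum hAfin, mul_assoc]
    apply mul_le_mul_of_nonneg_left _ (by positivity)
    have hlog : 0 ≤ Real.log m := Real.log_nonneg (by linarith)
    apply ENNReal.toReal_le_of_le_ofReal (by positivity)
    have h1 : ∑ k ∈ Finset.Ico m (2 * m), A k ≤ ((L + 1 : ℕ) : ENNReal) * W := by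
      simp only [hA]
      have e1 : ∀ k ∈ Finset.Ico m (2 * m), ∫⁻ w in RR σ0 L k, fz w = ∫⁻ w, (RR σ0 L k).indicator fz w := fun k _ => by
        rw [lintegral_indicator (RR_meas _ _ _)]
      rw [Finset.sum_congr rfl e1, ← lintegral_finset_sum _ (fun k _ => fz_meas.indicator (RR_meas _ _ _)), hW,
        ← lintegral_indicator (Rect_meas _ _ _ _), ← lintegral_const_mul _ (fz_meas.indicator (Rect_meas _ _ _ _))]
      refine lintegral_mono fun w => ?_
      have h2 : ∀ k ∈ Finset.Ico m (2 * m), (RR σ0 L k).indicator fz w ≤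
          (if ((2 * k - L : ℝ) ≤ w.im ∧ w.im ≤ 2 * k + L) then (Rect (4 / 5) (4 * σ0) m (5 * m)).indicator fz w else 0) := by
        intro k hk
        by_cases hw : w ∈ RR σ0 L k
        · rw [indicator_of_mem hw, indicator_of_mem (hsub k hk hw), if_pos hw.2]
        · rw [indicator_of_notMem hw]
          exact bot_le
      refine (Finset.sum_le_sum h2).trans ?_
      rw [← Finset.sum_filter, Finset.sum_const, nsmul_eq_mul]
      gcongr
      exact_mod_cast overlap L _ w.im
    refine h1.trans ((mul_le_mul_right hWle _).trans (le_of_eq ?_))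
    have e : ENNReal.ofReal (((L : ℝ) + 1) * C * (m * Real.log m ^ 3)) =
        ENNReal.ofReal ((L : ℝ) + 1) * ENNReal.ofReal (C * (m * Real.log m ^ 3)) := by
      rw [mul_assoc]
      exact ENNReal.ofReal_mul (by positivity)
    rw [e, ← ENNReal.ofReal_natCast]
    push_cast
    rfl

open Pool.Agent.W5h80.JO (SS SS_fin SS_count)

/-- a function of the size of `ζ(2 s)` which is bounded from below on a line far to the right does not vanish at all
zeros of zeta on the critical line -/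
theorem nonvanish (P : ℂ → ℂ) (σ0 K c : ℝ) (h0 : 4 ≤ σ0) (hK : 0 < K) (hc : 0 < c)
    (han : ∀ s : ℂ, s ≠ 1 / 2 → AnalyticAt ℂ P s)
    (hup : ∀ s : ℂ, 0 ≤ s.re → s.re ≤ 2 * σ0 → ‖P s‖ ≤ K * (1 + ‖riemannZeta (2 * s)‖))
    (hlow : ∀ t : ℝ, c ≤ ‖P ((σ0 : ℂ) + t * I)‖) :
    ∃ ρ : ℂ, riemannZeta ρ = 0 ∧ ρ.re = 1 / 2 ∧ P ρ ≠ 0 := by
  classical
  by_contra hcon
  push Not at hcon
  obtain ⟨C, T0, hC, hT0, hS⟩ := SS_count
  obtain ⟨C2, hC2, hZ⟩ := disc_sum σ0 h0
  set r : ℝ := σ0 - 1 / 2 + 1 / 24 with hr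
  set R : ℝ := σ0 - 1 / 2 + 1 / 16 with hR
  have hr0 : 0 < r := by rw [hr]; linarith
  have hrR : r < R := by rw [hr, hR]; linarith
  set κ : ℝ := Real.log (R / r) with hκ
  have hκ0 : 0 < κ := Real.log_pos (by rw [lt_div_iff₀ hr0]; linarith)
  set D : ℝ := |Real.log c| + (1 + 3 * K) + K * C2 with hD
  have hD0 : 0 ≤ D := by positivity
  have key : ∀ᶠ m : ℕ in atTop, (1 / 20 : ℝ) * (m * Real.log m) - C * m ≤
      (m * Real.log (Real.log m ^ 3) + D * m) / κ := by
    filter_upwards [hZ, eventually_ge_atTop (⌈T0⌉₊ + ⌈σ0⌉₊ + 10)] with m hZm hm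
    obtain ⟨Z, hZ0, hZ1, hZ2⟩ := hZm
    have hmT : T0 ≤ m := by
      have := Nat.le_ceil T0
      have h1 : ((⌈T0⌉₊ : ℕ) : ℝ) ≤ m := by exact_mod_cast (by omega : ⌈T0⌉₊ ≤ m)
      linarith
    have hmσ : σ0 ≤ m := by
      have := Nat.le_ceil σ0
      have h1 : ((⌈σ0⌉₊ : ℕ) : ℝ) ≤ m := by exact_mod_cast (by omega : ⌈σ0⌉₊ ≤ m)
      linarith
    have hm10 : (10 : ℝ) ≤ m := by exact_mod_cast (by omega : 10 ≤ m)
    have hlogm : 1 ≤ Real.log m := by
      rw [Real.le_log_iff_exp_le (by linarith)]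
      have := Real.exp_one_lt_d9
      linarith
    have hfin := SS_fin (m : ℝ) (by linarith)
    set F := hfin.toFinset with hF
    have hcard : ((SS (m : ℝ)).ncard : ℝ) = F.card := by rw [Set.ncard_eq_toFinset_card _ hfin]
    have hmem : ∀ z ∈ F, (m : ℝ) < z.im ∧ z.im ≤ 2 * m ∧ z.re = 1 / 2 ∧ riemannZeta z = 0 := by
      intro z hz
      rw [hF, Set.Finite.mem_toFinset] at hz
      obtain ⟨⟨_, _, h3, h4, h5⟩, h6, _⟩ := hz
      exact ⟨h3, h4, h6, h5⟩
    set φ : ℂ → ℕ := fun z => ⌈z.im⌉₊ - 1 with hφ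
    have hφi : ∀ z ∈ F, (φ z : ℝ) < z.im ∧ z.im ≤ φ z + 1 := by
      intro z hz
      obtain ⟨g1, g2, _, _⟩ := hmem z hz
      have hpos : 0 < z.im := by linarith
      have hce : 1 ≤ ⌈z.im⌉₊ := Nat.one_le_iff_ne_zero.2 (Nat.pos_iff_ne_zero.1 (Nat.ceil_pos.2 hpos))
      have e1 : (φ z : ℝ) = ⌈z.im⌉₊ - 1 := by
        simp only [hφ]
        rw [Nat.cast_sub hce, Nat.cast_one]
      have h1 := Nat.ceil_lt_add_one hpos.le
      have h2 := Nat.le_ceil z.im
      rw [e1]
      constructor <;> linarith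
    have hmaps : ∀ z ∈ F, φ z ∈ Finset.Ico m (2 * m) := by
      intro z hz
      obtain ⟨g1, g2, _, _⟩ := hmem z hz
      obtain ⟨g3, g4⟩ := hφi z hz
      rw [Finset.mem_Ico]
      constructor
      · have : (m : ℝ) < (φ z : ℝ) + 1 := by linarith
        have h1 : m < φ z + 1 := by exact_mod_cast this
        omega
      · have : (φ z : ℝ) < 2 * m := by linarith
        exact_mod_cast this
    have hSm := hS m hmT
    rw [hcard] at hSm
    refine hSm.trans ?_
    set Λ : ℝ := Real.log m ^ 3 with hΛ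
    have hΛ1 : 1 ≤ Λ := one_le_pow₀ hlogm
    have hfib : ∀ k ∈ Finset.Ico m (2 * m), ((F.filter (fun z => φ z = k)).card : ℝ) ≤
        (Real.log Λ + (1 + K * (2 + Z k)) / Λ + |Real.log c|) / κ := by
      intro k hk
      have hk' := hk
      rw [Finset.mem_Ico] at hk'
      have hkr : (m : ℝ) ≤ k := by exact_mod_cast hk'.1
      set ck : ℂ := (σ0 : ℂ) + ((k + 1 / 2 : ℝ) : ℂ) * I with hck
      have hre : ck.re = σ0 := by simp [hck]
      have him : ck.im = k + 1 / 2 := by simp [hck]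
      set M : ℝ := 1 + K * (2 + Z k) with hM
      have hM1 : 1 ≤ M := by
        have := hZ0 k
        have : 0 ≤ K * (2 + Z k) := by positivity
        linarith
      have hball : ∀ z ∈ closedBall ck R, 0 < z.im ∧ 0 ≤ z.re ∧ z.re ≤ 2 * σ0 := by
        intro z hz
        rw [mem_closedBall, dist_eq_norm] at hz
        have g1 := abs_le.1 ((Complex.abs_re_le_norm _).trans hz)
        have g2 := abs_le.1 ((Complex.abs_im_le_norm _).trans hz)
        rw [Complex.sub_re, hre] at g1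
        rw [Complex.sub_im, him] at g2
        refine ⟨?_, ?_, ?_⟩
        · linarith [g2.1]
        · linarith [g1.1]
        · linarith [g1.2]
      have hanb : AnalyticOnNhd ℂ P (closedBall ck R) := by
        intro z hz
        refine han z ?_
        intro h
        have := (hball z hz).1
        rw [h] at this
        norm_num at this
      have hPc : c ≤ ‖P ck‖ := by
        have := hlow (k + 1 / 2)
        exact this
      have hPc0 : P ck ≠ 0 := by
        intro h
        rw [h, norm_zero] at hPc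
        linarith
      have hPb : ∀ z ∈ closedBall ck R, ‖P z‖ ≤ M := by
        intro z hz
        obtain ⟨_, g2, g3⟩ := hball z hz
        refine (hup z g2 g3).trans ?_
        have g4 := hZ1 k hk z hz
        have g5 : ‖riemannZeta (2 * z)‖ ≤ 1 + ‖riemannZeta (2 * z)‖ ^ 2 := by
          nlinarith [norm_nonneg (riemannZeta (2 * z)), sq_nonneg (‖riemannZeta (2 * z)‖ - 1)]
        have g6 : 1 + ‖riemannZeta (2 * z)‖ ≤ 2 + Z k := by linarith
        have := mul_le_mul_of_nonneg_left g6 hK.le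
        linarith
      have hzin : ∀ z ∈ F.filter (fun z => φ z = k), z ∈ closedBall ck r := by
        intro z hz
        rw [Finset.mem_filter] at hz
        obtain ⟨g1, g2, g3, g4⟩ := hmem z hz.1
        obtain ⟨g5, g6⟩ := hφi z hz.1
        rw [hz.2] at g5 g6
        rw [mem_closedBall, dist_eq_norm]
        have e : ‖z - ck‖ ^ 2 = (z.re - σ0) ^ 2 + (z.im - (k + 1 / 2)) ^ 2 := by
          rw [← Complex.normSq_eq_norm_sq, Complex.normSq_apply, Complex.sub_re, Complex.sub_im, hre, him]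
          ring
        have h2 : ‖z - ck‖ ^ 2 ≤ r ^ 2 := by
          rw [e, g3, hr]
          nlinarith
        exact (pow_le_pow_iff_left₀ (norm_nonneg _) hr0.le (by norm_num)).1 h2
      have hj := H370.Loc.jensen_mult (f := P) (c := ck) (r := r) (R := R) (M := M) hr0 hrR hM1 hanb hPc0 hPb
        (F.filter (fun z => φ z = k)) hzin
      have hcd : ((F.filter (fun z => φ z = k)).card : ℝ) ≤ ∑ z ∈ F.filter (fun z => φ z = k), (H370.mult P z : ℝ) := by
        have : (((F.filter (fun z => φ z = k)).card : ℕ) : ℝ) = ∑ z ∈ F.filter (fun z => φ z = k), (1:ℝ) := by simp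
        rw [this]
        refine Finset.sum_le_sum fun z hz => ?_
        have hzb : z ∈ closedBall ck R := closedBall_subset_closedBall hrR.le (hzin z hz)
        rw [Finset.mem_filter] at hz
        obtain ⟨_, _, g3, g4⟩ := hmem z hz.1
        have h1 := (H370.Loc.mult_pos (f := P) (K := closedBall ck R) (convex_closedBall ck R).isPreconnected
          hanb (mem_closedBall_self (hr0.le.trans hrR.le)) hPc0 hzb).2 (hcon z g4 g3)
        have h2 : 1 ≤ H370.mult P z := h1
        exact_mod_cast h2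
      refine (hcd.trans hj).trans ?_
      refine div_le_div_of_nonneg_right ?_ hκ0.le
      rw [Real.log_div (by linarith) (by linarith)]
      have e1 : Real.log M ≤ Real.log Λ + M / Λ := by
        have h1 : Real.log (M / Λ) ≤ M / Λ - 1 := Real.log_le_sub_one_of_pos (by positivity)
        rw [Real.log_div (by linarith) (by linarith)] at h1
        linarith
      have e2 : -|Real.log c| ≤ Real.log ‖P ck‖ :=
        (neg_abs_le _).trans (Real.log_le_log hc hPc)
      linarith
    have hsum : (F.card : ℝ) = ∑ k ∈ Finset.Ico m (2 * m), ((F.filter (fun z => φ z = k)).card : ℝ) := by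
      rw [Finset.card_eq_sum_card_fiberwise hmaps]
      push_cast
      rfl
    rw [hsum]
    refine (Finset.sum_le_sum hfib).trans ?_
    rw [← Finset.sum_div]
    refine div_le_div_of_nonneg_right ?_ hκ0.le
    rw [Finset.sum_add_distrib, Finset.sum_add_distrib]
    simp only [Finset.sum_const, Nat.card_Ico, nsmul_eq_mul]
    have hcm : ((2 * m - m : ℕ) : ℝ) = m := by
      have : 2 * m - m = m := by omega
      rw [this]
    rw [hcm, ← Finset.sum_div]
    have e3 : ∑ k ∈ Finset.Ico m (2 * m), (1 + K * (2 + Z k)) = m * (1 + 2 * K) + K * ∑ k ∈ Finset.Ico m (2 * m), Z k := by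
      rw [Finset.mul_sum]
      have : ∀ k ∈ Finset.Ico m (2 * m), (1 + K * (2 + Z k)) = (1 + 2 * K) + K * Z k := fun k _ => by ring
      rw [Finset.sum_congr rfl this, Finset.sum_add_distrib]
      simp only [Finset.sum_const, Nat.card_Ico, nsmul_eq_mul]
      rw [hcm]
    rw [e3, add_div]
    have hm0 : (0 : ℝ) ≤ m := by linarith
    have e4 : m * (1 + 2 * K) / Λ ≤ m * (1 + 2 * K) := div_le_self (by positivity) hΛ1
    have e5 : K * (∑ k ∈ Finset.Ico m (2 * m), Z k) / Λ ≤ K * C2 * m := by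
      rw [div_le_iff₀ (by linarith)]
      have := mul_le_mul_of_nonneg_left hZ2 hK.le
      linarith
    rw [hD]
    have hKm : 0 ≤ K * m := by positivity
    linarith
  -- contradiction
  have hlog : Tendsto (fun m : ℕ => Real.log m) atTop atTop := Real.tendsto_log_atTop.comp tendsto_natCast_atTop_atTop
  have hll : ∀ᶠ y : ℝ in atTop, Real.log y ≤ κ / 120 * y := by
    have := Real.isLittleO_log_id_atTop.bound (show 0 < κ / 120 by positivity)
    filter_upwards [this, eventually_ge_atTop (1:ℝ)] with y hy hy1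
    rw [Real.norm_eq_abs, Real.norm_eq_abs, id, abs_of_pos (by linarith : 0 < y)] at hy
    exact (le_abs_self _).trans hy
  obtain ⟨m, h1, h2, h3, h4⟩ := (key.and ((hlog.eventually hll).and
    ((hlog.eventually_ge_atTop (40 * (C + D / κ + 1))).and (eventually_ge_atTop 1)))).exists
  have hm1 : (1 : ℝ) ≤ m := by exact_mod_cast h4
  rw [Real.log_pow] at h1
  push_cast at h1
  have e1 : (m * (3 * Real.log (Real.log m)) + D * m) / κ = m * (3 * Real.log (Real.log m) / κ + D / κ) := by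
    field_simp
  rw [e1] at h1
  have e2 : 3 * Real.log (Real.log m) / κ ≤ Real.log m / 40 := by
    rw [div_le_iff₀ hκ0]
    linarith
  have e3 : (1 / 20 : ℝ) * (m * Real.log m) - C * m = m * (Real.log m / 20 - C) := by ring
  rw [e3] at h1
  have e4 := le_of_mul_le_mul_left h1 (by linarith)
  linarith

end

end Pool.Agent.W5h25.ML
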