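import Pool.Agent.W5h25.ML.NZ
import Pool.Agent.W5h80.JO.F

/-! Joint oscillation of the two functions at dilates. -/

set_option autoImplicit false
set_option maxHeartbeats 4000000

open Complex MeasureTheory Filter Topology Set
open Pool.Agent.W5h80.JO (sel cv)

namespace Pool.Agent.W5h25.ML

noncomputable section

/-- separated dilates, for each of the two functions -/
def SepJ {J : Type*} (σ : J → Bool) (δ : ℝ) (r : J → ℝ) : Prop :=
  (∀ j, δ ≤ r j ∧ r j ≤ 1 / δ) ∧ ∀ i j, i ≠ j → σ i = σ j → δ ≤ |r i - r j|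

/-- the parameter space -/
def PSJ {J : Type*} [Fintype J] (σ : J → Bool) (δ : ℝ) : Set ((J → ℝ) × (J → ℝ)) := {p | SepJ σ δ p.1 ∧ ‖p.2‖ = 1}

theorem PSJ_compact {J : Type*} [Fintype J] (σ : J → Bool) (δ : ℝ) : IsCompact (PSJ σ δ) := by
  have h1 : IsCompact ((Set.pi univ fun _ : J => Icc δ (1 / δ)) ×ˢ Metric.closedBall (0 : J → ℝ) 1) :=
    (isCompact_univ_pi fun _ => isCompact_Icc).prod (isCompact_closedBall _ _)
  refine h1.of_isClosed_subset ?_ ?_
  · have e : PSJ σ δ = (⋂ i, {p : (J → ℝ) × (J → ℝ) | δ ≤ p.1 i ∧ p.1 i ≤ 1 / δ}) ∩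
        (⋂ i, ⋂ j, {p : (J → ℝ) × (J → ℝ) | i ≠ j → σ i = σ j → δ ≤ |p.1 i - p.1 j|}) ∩
        {p : (J → ℝ) × (J → ℝ) | ‖p.2‖ = 1} := by
      ext p
      simp only [PSJ, SepJ, mem_ofPred_eq, mem_inter_iff, mem_iInter]
    rw [e]
    have c1 : ∀ i, Continuous (fun p : (J → ℝ) × (J → ℝ) => p.1 i) := fun i =>
      (continuous_apply i).comp continuous_fst
    refine ((isClosed_iInter fun i => ?_).inter (isClosed_iInter fun i => isClosed_iInter fun j => ?_)).inter ?_
    · exact (isClosed_le continuous_const (c1 i)).inter (isClosed_le (c1 i) continuous_const)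
    · by_cases hij : i ≠ j ∧ σ i = σ j
      · have : {p : (J → ℝ) × (J → ℝ) | i ≠ j → σ i = σ j → δ ≤ |p.1 i - p.1 j|} = {p | δ ≤ |p.1 i - p.1 j|} := by
          ext p
          simp only [mem_ofPred_eq]
          exact ⟨fun h => h hij.1 hij.2, fun h _ _ => h⟩
        rw [this]
        exact isClosed_le continuous_const ((c1 i).sub (c1 j)).abs
      · have : {p : (J → ℝ) × (J → ℝ) | i ≠ j → σ i = σ j → δ ≤ |p.1 i - p.1 j|} = univ := by
          ext p
          simp only [mem_ofPred_eq, mem_univ, iff_true]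
          exact fun g1 g2 => absurd ⟨g1, g2⟩ hij
        rw [this]
        exact isClosed_univ
    · exact isClosed_eq continuous_snd.norm continuous_const
  · rintro ⟨r, a⟩ ⟨⟨h2, _⟩, h3⟩
    refine ⟨fun i _ => h2 i, ?_⟩
    rw [mem_closedBall_zero_iff]
    exact h3.le

theorem dilatesJ (hLB : LBs) {J : Type*} [Fintype J] (σ : J → Bool) (EE : Bool → ℝ → ℝ)
    (hEE : ∀ b w, 0 ≤ w → Es b w = EE b (Real.exp w)) (δ : ℝ) (hδ : 0 < δ) :
    ∃ c : ℝ, 0 < c ∧ ∀ᶠ x : ℝ in atTop, ∀ r : J → ℝ, SepJ σ δ r → ∀ a : J → ℝ,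
      (∃ y ∈ Icc x (x * Real.log x), c * ‖a‖ * Real.sqrt y ≤ ∑ j, a j * EE (σ j) (r j * y)) ∧
      c * ‖a‖ ≤ ∫ y in x..(x * Real.log x), max (∑ j, a j * EE (σ j) (r j * y)) 0 * y ^ (-(3 / 2) : ℝ) := by
  have hK := PSJ_compact σ δ
  have hpos : ∀ p ∈ PSJ σ δ, ∀ j, 0 < p.1 j := fun p hp j => hδ.trans_le (hp.1.1 j).1
  -- selection of zeros
  obtain ⟨F, η, hF, hη, hηF⟩ := sel (PSJ σ δ) hK (fun p s => PP σ p.2 (fun j => Real.log (p.1 j)) s) (fun s => by
      unfold PP
      refine continuousOn_finsetSum _ fun j _ => ?_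
      have c1 : Continuous (fun p : (J → ℝ) × (J → ℝ) => ((p.2 j : ℝ) : ℂ) * Zs (σ j) s) := by fun_prop
      have c2 : ContinuousOn (fun p : (J → ℝ) × (J → ℝ) => Real.log (p.1 j)) (PSJ σ δ) :=
        ContinuousOn.log (by fun_prop) (fun p hp => (hpos p hp j).ne')
      exact c1.continuousOn.mul (by fun_prop))
    (fun p hp => NZ hLB σ p.2 _ (fun i j hij hσ h => by
        have h1 : p.1 i = p.1 j := Real.log_injOn_pos (mem_Ioi.2 (hpos p hp i)) (mem_Ioi.2 (hpos p hp j)) h
        have h2 := hp.1.2 i j hij hσ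
        rw [h1, sub_self, abs_zero] at h2
        linarith) (fun h => by
        have := hp.2
        rw [h, norm_zero] at this
        exact zero_ne_one this))
  set R : ℝ := |Real.log δ| with hR
  have hR0 : 0 ≤ R := abs_nonneg _
  have hlog : ∀ p ∈ PSJ σ δ, ∀ j, |Real.log (p.1 j)| ≤ R := by
    intro p hp j
    have h1 := Real.log_le_log hδ (hp.1.1 j).1
    have h2 := Real.log_le_log (hpos p hp j) (hp.1.1 j).2
    rw [one_div, Real.log_inv] at h2
    have h3 := neg_abs_le (Real.log δ)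
    rw [abs_le]
    constructor <;> linarith
  obtain ⟨c, hc, hev, hevI⟩ := mgeneral (X := PSJ σ δ) (msig σ) R hR0 (fun p => p.1.2) (fun p j => Real.log (p.1.1 j))
    (fun p j => by
      have h1 := norm_le_pi_norm p.1.2 j
      rw [p.2.2, Real.norm_eq_abs] at h1
      exact h1) (fun p j => hlog p.1 p.2 j) F hF η hη (fun p => hηF p.1 p.2)
  refine ⟨c, hc, ?_⟩
  filter_upwards [Real.tendsto_log_atTop.eventually hev, Real.tendsto_log_atTop.eventually hevI,
    Real.tendsto_log_atTop.eventually_ge_atTop R, eventually_ge_atTop (Real.exp 1)] with x hx hxI hxR hx1 r hr a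
  have hx0 : 0 < x := (Real.exp_pos 1).trans_le hx1
  have hl1 : 1 ≤ Real.log x := by rwa [Real.le_log_iff_exp_le hx0]
  by_cases ha : a = 0
  · refine ⟨⟨x, ⟨le_rfl, le_mul_of_one_le_right hx0.le hl1⟩, ?_⟩, ?_⟩
    · rw [ha]
      simp
    · rw [ha]
      simp
  · have hn : 0 < ‖a‖ := norm_pos_iff.2 ha
    set b : J → ℝ := ‖a‖⁻¹ • a with hb
    have hbn : ‖b‖ = 1 := by
      rw [hb, norm_smul, norm_inv, norm_norm, inv_mul_cancel₀ hn.ne']
    have hpb : (r, b) ∈ PSJ σ δ := ⟨hr, hbn⟩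
    have key : ∀ u : ℝ, Real.log x ≤ u → Cb (fun j => Es (σ j)) b (fun j => Real.log (r j)) u =
        ∑ j, b j * EE (σ j) (r j * Real.exp u) := by
      intro u hu
      unfold Cb
      refine Finset.sum_congr rfl fun j _ => ?_
      have h1 : -R ≤ Real.log (r j) := (abs_le.1 (hlog _ hpb j)).1
      have h0 : 0 < r j := hpos _ hpb j
      show b j * Es (σ j) (u + Real.log (r j)) = _
      rw [hEE _ _ (by linarith), Real.exp_add, Real.exp_log h0, mul_comm (Real.exp u)]
    have e2 : ∀ y : ℝ, ∑ j, a j * EE (σ j) (r j * y) = ‖a‖ * ∑ j, b j * EE (σ j) (r j * y) := by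
      intro y
      rw [Finset.mul_sum]
      refine Finset.sum_congr rfl fun j _ => ?_
      rw [hb, Pi.smul_apply, smul_eq_mul]
      field_simp
    constructor
    · obtain ⟨u, hu, hu2⟩ := hx ⟨(r, b), hpb⟩
      refine ⟨Real.exp u, ⟨?_, ?_⟩, ?_⟩
      · rw [← Real.log_le_iff_le_exp hx0]; exact hu.1
      · have h2 : Real.log (x * Real.log x) = Real.log x + Real.log (Real.log x) :=
          Real.log_mul hx0.ne' (by linarith)
        rw [← Real.le_log_iff_exp_le (by positivity), h2]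
        exact hu.2
      · have hsq : Real.sqrt (Real.exp u) = Real.exp (u / 2) := by
          rw [Real.sqrt_eq_iff_mul_self_eq (Real.exp_pos _).le (Real.exp_pos _).le, ← Real.exp_add]
          congr 1
          ring
        rw [hsq, e2, ← key u hu.1]
        calc c * ‖a‖ * Real.exp (u / 2) = ‖a‖ * (c * Real.exp (u / 2)) := by ring
          _ ≤ _ := mul_le_mul_of_nonneg_left hu2 hn.le
    · have h1 := hxI ⟨(r, b), hpb⟩
      have h2 : ∫ u in Icc (Real.log x) (Real.log x + Real.log (Real.log x)),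
          max (Cb (fun j => Es (σ j)) b (fun j => Real.log (r j)) u) 0 * Real.exp (-(u / 2)) =
          ∫ y in x..(x * Real.log x), max (∑ j, b j * EE (σ j) (r j * y)) 0 * y ^ (-(3 / 2) : ℝ) := by
        rw [← cv (fun y => max (∑ j, b j * EE (σ j) (r j * y)) 0) x hx0 hl1]
        refine setIntegral_congr_fun measurableSet_Icc fun u hu => ?_
        show max (Cb (fun j => Es (σ j)) b (fun j => Real.log (r j)) u) 0 * Real.exp (-(u / 2)) = _
        rw [key u hu.1]
      have h3 : c ≤ ∫ y in x..(x * Real.log x), max (∑ j, b j * EE (σ j) (r j * y)) 0 * y ^ (-(3 / 2) : ℝ) := by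
        rw [← h2]
        exact h1
      simp_rw [e2]
      have e3 : ∀ y : ℝ, max (‖a‖ * ∑ j, b j * EE (σ j) (r j * y)) 0 * y ^ (-(3 / 2) : ℝ) =
          ‖a‖ * (max (∑ j, b j * EE (σ j) (r j * y)) 0 * y ^ (-(3 / 2) : ℝ)) := by
        intro y
        rw [← mul_assoc]
        congr 1
        rcases le_total (∑ j, b j * EE (σ j) (r j * y)) 0 with h | h
        · rw [max_eq_right h, max_eq_right (mul_nonpos_of_nonneg_of_nonpos hn.le h), mul_zero]
        · rw [max_eq_left h, max_eq_left (mul_nonneg hn.le h)]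
      simp_rw [e3]
      rw [intervalIntegral.integral_const_mul, mul_comm c]
      exact mul_le_mul_of_nonneg_left h3 hn.le

/-- from linear functionals to the convex hull -/
theorem hullJ {J : Type*} [Fintype J] (S : Set (J → ℝ)) (c : ℝ) (hc : 0 < c)
    (h : ∀ a : J → ℝ, ∃ q ∈ S, c * ‖a‖ ≤ ∑ i, a i * q i) :
    Metric.ball (0 : J → ℝ) (c / (Fintype.card J + 1)) ⊆ convexHull ℝ S := by
  classical
  set k : ℝ := (Fintype.card J : ℝ) with hk
  have hk0 : 0 ≤ k := Nat.cast_nonneg _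
  set C := convexHull ℝ S with hC
  have hconv : Convex ℝ C := convex_convexHull ℝ S
  have hcl : Metric.ball (0 : J → ℝ) (c / (k + 1)) ⊆ closure C := by
    intro p hp
    by_contra hcon
    obtain ⟨f, u, hf1, hf2⟩ := geometric_hahn_banach_closed_point hconv.closure isClosed_closure hcon
    set a : J → ℝ := fun i => f (fun j => if i = j then 1 else 0) with ha
    have hfa : ∀ q : J → ℝ, f q = ∑ i, a i * q i := by
      intro q
      have := LinearMap.pi_apply_eq_sum_univ (f : (J → ℝ) →ₗ[ℝ] ℝ) q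
      simp only [ContinuousLinearMap.coe_coe, smul_eq_mul] at this
      rw [this]
      refine Finset.sum_congr rfl fun i _ => ?_
      rw [ha, mul_comm]
    obtain ⟨q, hq, hq2⟩ := h a
    have h1 := hf1 q (subset_closure (subset_convexHull ℝ S hq))
    rw [hfa] at h1 hf2
    have h2 : ∑ i, a i * p i ≤ k * (‖a‖ * (c / (k + 1))) := by
      have h3 : ∀ i ∈ Finset.univ, a i * p i ≤ ‖a‖ * (c / (k + 1)) := by
        intro i _
        rw [mem_ball_zero_iff] at hp
        have g1 := norm_le_pi_norm a i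
        have g2 := (norm_le_pi_norm p i).trans hp.le
        rw [Real.norm_eq_abs] at g1 g2
        calc a i * p i ≤ |a i * p i| := le_abs_self _
          _ = |a i| * |p i| := abs_mul _ _
          _ ≤ ‖a‖ * (c / (k + 1)) := mul_le_mul g1 g2 (abs_nonneg _) (norm_nonneg _)
      refine (Finset.sum_le_card_nsmul _ _ _ h3).trans (le_of_eq ?_)
      rw [Finset.card_univ, nsmul_eq_mul]
    have h3 : k * (‖a‖ * (c / (k + 1))) ≤ c * ‖a‖ := by
      have : k * (‖a‖ * (c / (k + 1))) = (c * ‖a‖) * (k / (k + 1)) := by ring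
      rw [this]
      refine mul_le_of_le_one_right (by positivity) ?_
      rw [div_le_one (by positivity)]
      linarith
    linarith
  have hint : (interior C).Nonempty := by
    rw [hconv.interior_nonempty_iff_affineSpan_eq_top]
    have hcl2 : closure C ⊆ (affineSpan ℝ C : Set (J → ℝ)) :=
      closure_minimal (subset_affineSpan ℝ C) (AffineSubspace.closed_of_finiteDimensional _)
    have h1 := hcl.trans hcl2
    have h2 : affineSpan ℝ (Metric.ball (0 : J → ℝ) (c / (k + 1))) = ⊤ :=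
      Metric.isOpen_ball.affineSpan_eq_top ⟨0, Metric.mem_ball_self (by positivity)⟩
    have h3 := affineSpan_le.2 h1
    rw [h2] at h3
    exact top_le_iff.1 h3
  have h4 : interior (closure C) = interior C := hconv.interior_closure_eq_interior_of_nonempty_interior hint
  intro p hp
  have h5 : p ∈ interior (closure C) := interior_mono hcl (by rwa [Metric.isOpen_ball.interior_eq])
  rw [h4] at h5
  exact interior_subset h5

/-- the curve of normalised values at the dilates -/
def crvJ {J : Type*} (σ : J → Bool) (EE : Bool → ℝ → ℝ) (r : J → ℝ) (x : ℝ) : Set (J → ℝ) :=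
  {q | ∃ y ∈ Icc x (x * Real.log x), q = fun j => EE (σ j) (r j * y) / Real.sqrt y}

theorem dilatesJ_hull (hLB : LBs) {J : Type*} [Fintype J] (σ : J → Bool) (EE : Bool → ℝ → ℝ)
    (hEE : ∀ b w, 0 ≤ w → Es b w = EE b (Real.exp w)) (δ : ℝ) (hδ : 0 < δ) :
    ∃ c : ℝ, 0 < c ∧ ∀ᶠ x : ℝ in atTop, ∀ r : J → ℝ, SepJ σ δ r →
      Metric.ball (0 : J → ℝ) c ⊆ convexHull ℝ (crvJ σ EE r x) := by
  obtain ⟨c, hc, hev⟩ := dilatesJ hLB σ EE hEE δ hδ
  refine ⟨c / (Fintype.card J + 1), by positivity, ?_⟩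
  filter_upwards [hev, eventually_gt_atTop (0:ℝ)] with x hx hx0 r hr
  refine hullJ _ c hc fun a => ?_
  obtain ⟨⟨y, hy, hy2⟩, _⟩ := hx r hr a
  refine ⟨_, ⟨y, hy, rfl⟩, ?_⟩
  have hy0 : 0 < Real.sqrt y := Real.sqrt_pos.2 (hx0.trans_le hy.1)
  have e : ∑ i, a i * (EE (σ i) (r i * y) / Real.sqrt y) = (∑ i, a i * EE (σ i) (r i * y)) / Real.sqrt y := by
    rw [Finset.sum_div]
    refine Finset.sum_congr rfl fun i _ => ?_
    ring
  rw [e, le_div_iff₀ hy0]
  exact hy2

end

end Pool.Agent.W5h25.ML
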