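import Pool.Agent.W5h80.JO.G

/-! Combinations of translates of several signals seen by the same kernels. -/

set_option autoImplicit false
set_option maxHeartbeats 4000000

open Complex MeasureTheory Filter Topology Set
open H313.TK
open Pool.Agent.W5h80.JO (DK_int coreU supU intU)

namespace Pool.Agent.W5h25.ML

noncomputable section

/-- several signals, seen by the same kernels -/
structure MSig {J : Type*} (E : J → ℝ → ℝ) (Z : J → ℂ → ℂ) : Prop where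
  meas : ∀ j, Measurable (E j)
  bd : ∃ B : ℝ, 0 ≤ B ∧ ∀ j u, |E j u| ≤ B * Real.exp u
  avg : ∃ C : ℝ, 0 ≤ C ∧ ∀ j, ∀ t : ℝ, 0 ≤ t → |∫ v : ℝ, E j (t - v) * kp v| ≤ C
  asy : ∀ ρ : ℂ, riemannZeta ρ = 0 → ρ.re = 1 / 2 → ∃ h : ℝ → ℂ, DK h ∧ ∃ A : ℂ, A ≠ 0 ∧ ∃ C : ℝ, 0 ≤ C ∧
    ∀ j, ∀ t : ℝ, 0 ≤ t → ‖(∫ v : ℝ, (E j (t - v) : ℂ) * h v) - A * Z j ρ * cexp (ρ * t)‖ ≤ C * (1 + t)

/-- combination of translates -/
def Cb {J : Type*} [Fintype J] (E : J → ℝ → ℝ) (a l : J → ℝ) (u : ℝ) : ℝ := ∑ j, a j * E j (u + l j)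

theorem Cb_meas {J : Type*} [Fintype J] {E : J → ℝ → ℝ} (hE : ∀ j, Measurable (E j)) (a l : J → ℝ) :
    Measurable (Cb E a l) := by
  unfold Cb
  refine Finset.measurable_sum _ fun j _ => ?_
  have := hE j
  fun_prop

theorem Cb_bd {J : Type*} [Fintype J] {E : J → ℝ → ℝ} {B R : ℝ} (hB : 0 ≤ B)
    (hb : ∀ j u, |E j u| ≤ B * Real.exp u) {a l : J → ℝ} (ha : ∀ j, |a j| ≤ 1) (hl : ∀ j, |l j| ≤ R) (u : ℝ) :
    |Cb E a l u| ≤ Fintype.card J * (B * Real.exp R) * Real.exp u := by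
  unfold Cb
  refine (Finset.abs_sum_le_sum_abs _ _).trans ?_
  have h1 : ∀ j ∈ Finset.univ, |a j * E j (u + l j)| ≤ B * Real.exp R * Real.exp u := by
    intro j _
    rw [abs_mul]
    have h2 : |E j (u + l j)| ≤ B * Real.exp (u + R) := by
      refine (hb j _).trans (mul_le_mul_of_nonneg_left (Real.exp_le_exp.2 ?_) hB)
      linarith [(abs_le.1 (hl j)).2]
    have h3 := mul_le_mul (ha j) h2 (abs_nonneg _) zero_le_one
    rw [one_mul, Real.exp_add] at h3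
    linarith
  refine (Finset.sum_le_card_nsmul _ _ _ h1).trans (le_of_eq ?_)
  rw [Finset.card_univ, nsmul_eq_mul]
  ring

theorem Cb_int {J : Type*} [Fintype J] {E : J → ℝ → ℝ} (hE : ∀ j, Measurable (E j)) {B : ℝ} (hB : 0 ≤ B)
    (hb : ∀ j u, |E j u| ≤ B * Real.exp u) (a l : J → ℝ) {g : ℝ → ℂ} (hg : DK g) (t : ℝ) :
    ∫ v : ℝ, (Cb E a l (t - v) : ℂ) * g v = ∑ j, (a j : ℂ) * ∫ v : ℝ, (E j (t + l j - v) : ℂ) * g v := by
  have e : ∀ v : ℝ, (Cb E a l (t - v) : ℂ) * g v = ∑ j, (a j : ℂ) * ((E j (t + l j - v) : ℂ) * g v) := by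
    intro v
    unfold Cb
    rw [Complex.ofReal_sum, Finset.sum_mul]
    refine Finset.sum_congr rfl fun j _ => ?_
    rw [show t - v + l j = t + l j - v by ring]
    push_cast
    ring
  simp_rw [e]
  rw [integral_finsetSum _ (fun j _ => ((DK_int (hE j) hB (hb j) hg (t + l j)).const_mul _))]
  refine Finset.sum_congr rfl fun j _ => ?_
  rw [integral_const_mul]

theorem mgeneral {X J : Type*} [Fintype J] {E : J → ℝ → ℝ} {Z : J → ℂ → ℂ} (hE : MSig E Z) (R : ℝ) (hR : 0 ≤ R)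
    (a l : X → J → ℝ) (ha : ∀ x j, |a x j| ≤ 1) (hl : ∀ x j, |l x j| ≤ R) (F : Finset ℂ)
    (hF : ∀ ρ ∈ F, riemannZeta ρ = 0 ∧ ρ.re = 1 / 2) (η : ℝ) (hη : 0 < η)
    (hηF : ∀ x, ∃ ρ ∈ F, η ≤ ‖∑ j, (a x j : ℂ) * Z j ρ * cexp (ρ * l x j)‖) :
    ∃ c : ℝ, 0 < c ∧ (∀ᶠ t : ℝ in atTop, ∀ x, ∃ u ∈ Icc t (t + Real.log t),
      c * Real.exp (u / 2) ≤ Cb E (a x) (l x) u) ∧
      ∀ᶠ t : ℝ in atTop, ∀ x, c ≤ ∫ u in Icc t (t + Real.log t), max (Cb E (a x) (l x) u) 0 * Real.exp (-(u / 2)) := by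
  obtain ⟨B, hB, hb⟩ := hE.bd
  obtain ⟨C, hC, havg⟩ := hE.avg
  have hasy : ∀ ρ : F, ∃ h : ℝ → ℂ, DK h ∧ ∃ A : ℂ, A ≠ 0 ∧ ∃ C : ℝ, 0 ≤ C ∧
      ∀ j, ∀ t : ℝ, 0 ≤ t → ‖(∫ v : ℝ, (E j (t - v) : ℂ) * h v) - A * Z j ρ * cexp ((ρ : ℂ) * t)‖ ≤ C * (1 + t) :=
    fun ρ => hE.asy ρ (hF ρ ρ.2).1 (hF ρ ρ.2).2
  choose h hDK A hA K hK hbd using hasy
  have hAmin : ∃ a : ℝ, 0 < a ∧ ∀ ρ : F, a ≤ ‖A ρ‖ := by
    by_cases hne : Nonempty F
    · obtain ⟨ρ₀, hρ₀⟩ := Finite.exists_min (fun ρ : F => ‖A ρ‖)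
      exact ⟨‖A ρ₀‖, norm_pos_iff.2 (hA ρ₀), hρ₀⟩
    · exact ⟨1, one_pos, fun ρ => absurd ⟨ρ⟩ hne⟩
  obtain ⟨α, hα, hAa⟩ := hAmin
  have hKmax : ∃ k : ℝ, 0 ≤ k ∧ ∀ ρ : F, K ρ ≤ k :=
    ⟨∑ ρ, K ρ, Finset.sum_nonneg fun ρ _ => hK ρ, fun ρ => Finset.single_le_sum (fun i _ => hK i) (Finset.mem_univ ρ)⟩
  obtain ⟨k, hk, hKk⟩ := hKmax
  set n : ℝ := (Fintype.card J : ℝ) with hn
  have hn0 : 0 ≤ n := by rw [hn]; positivity
  set D : ℝ := n * (B * Real.exp R) + 1 with hD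
  have hD0 : 0 < D := by positivity
  set f : X → ℝ → ℝ := fun x u => Cb E (a x) (l x) u / D with hf
  have hfm : ∀ x, Measurable (f x) := fun x => (Cb_meas hE.meas _ _).div_const D
  have hfb : ∀ x u, |f x u| ≤ Real.exp u := by
    intro x u
    simp only [hf]
    rw [abs_div, abs_of_pos hD0, div_le_iff₀ hD0]
    have g1 := Cb_bd hB hb (ha x) (hl x) u
    have g4 := Real.exp_pos u
    rw [hD]
    rw [← hn] at g1
    nlinarith
  have hii : ∀ x (t : ℝ) (g : ℝ → ℂ), DK g → ∫ v : ℝ, (f x (t - v) : ℂ) * g v =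
      (∑ j, (a x j : ℂ) * ∫ v : ℝ, (E j (t + l x j - v) : ℂ) * g v) / D := by
    intro x t g hg
    rw [← Cb_int hE.meas hB hb (a x) (l x) hg t, ← integral_div]
    refine integral_congr_ae (ae_of_all _ fun v => ?_)
    simp only [hf]
    push_cast
    ring
  have hav : ∀ᶠ t : ℝ in atTop, ∀ x, |∫ v : ℝ, f x (t - v) * kp v| ≤ n * C := by
    filter_upwards [eventually_ge_atTop R] with t ht x
    have e1 : ∫ v : ℝ, f x (t - v) * kp v = (∑ j, a x j * ∫ v : ℝ, E j (t + l x j - v) * kp v) / D := by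
      have h3 := hii x t kc kc_DK
      have h4 : ∀ (g : ℝ → ℝ) (s : ℝ), ∫ v : ℝ, (g (s - v) : ℂ) * kc v = ((∫ v : ℝ, g (s - v) * kp v : ℝ) : ℂ) := by
        intro g s
        rw [← integral_complex_ofReal]
        refine integral_congr_ae (ae_of_all _ fun v => ?_)
        simp [kc]
      simp_rw [h4] at h3
      exact_mod_cast h3
    rw [e1, abs_div, abs_of_pos hD0, div_le_iff₀ hD0]
    have g1 : |∑ j, a x j * ∫ v : ℝ, E j (t + l x j - v) * kp v| ≤ n * C := by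
      refine (Finset.abs_sum_le_sum_abs _ _).trans ?_
      have h1 : ∀ j ∈ Finset.univ, |a x j * ∫ v : ℝ, E j (t + l x j - v) * kp v| ≤ C := by
        intro j _
        rw [abs_mul]
        have h2 := havg j (t + l x j) (by linarith [(abs_le.1 (hl x j)).1])
        have h3 := mul_le_mul (ha x j) h2 (abs_nonneg _) zero_le_one
        rwa [one_mul] at h3
      refine (Finset.sum_le_card_nsmul _ _ _ h1).trans (le_of_eq ?_)
      rw [Finset.card_univ, nsmul_eq_mul]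
    have g4 : 0 ≤ n * C := by positivity
    have g5 : n * C * 1 ≤ n * C * D := mul_le_mul_of_nonneg_left (by rw [hD]; linarith [mul_nonneg hn0 (mul_nonneg hB (Real.exp_pos R).le)]) g4
    linarith
  have hexp : ∀ᶠ t : ℝ in atTop, n * (k * (1 + t + R)) ≤ α * η / 2 * Real.exp (t / 2) := by
    have h3 : Tendsto (fun t : ℝ => Real.exp (t / 2) / (t / 2)) atTop atTop := by
      have h4 := (Real.tendsto_exp_div_pow_atTop 1).comp
        (tendsto_id.atTop_div_const (by norm_num : (0:ℝ) < 2) : Tendsto (fun t : ℝ => t / 2) atTop atTop)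
      refine h4.congr fun t => ?_
      simp
    have h5 : 0 < α * η / 2 := by positivity
    filter_upwards [h3.eventually_ge_atTop ((n * (k * (2 + R))) * 2 / (α * η / 2)), eventually_ge_atTop (1:ℝ)]
      with t g1 g2
    rw [div_le_div_iff₀ h5 (by linarith)] at g1
    have g3 : 0 ≤ n * k := by positivity
    have g4 : 1 + t + R ≤ (2 + R) * t := by nlinarith
    have g5 := mul_le_mul_of_nonneg_left g4 g3
    linarith
  have hlow : ∀ᶠ t : ℝ in atTop, ∀ x, ∃ ρ : F, α * η / 2 / D * Real.exp (t / 2) ≤ ‖∫ v : ℝ, (f x (t - v) : ℂ) * h ρ v‖ := by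
    filter_upwards [hexp, eventually_ge_atTop R, eventually_ge_atTop (0:ℝ)] with t g1 g2 g3 x
    obtain ⟨ρ, hρF, hρ⟩ := hηF x
    refine ⟨⟨ρ, hρF⟩, ?_⟩
    set r : F := ⟨ρ, hρF⟩ with hr
    rw [hii x t _ (hDK r), norm_div, Complex.norm_real, Real.norm_eq_abs, abs_of_pos hD0]
    set I1 : J → ℂ := fun j => ∫ v : ℝ, (E j (t + l x j - v) : ℂ) * h r v with hI1
    set Q : ℂ := ∑ j, (a x j : ℂ) * Z j ρ * cexp (ρ * l x j) with hQ
    have e3 : A r * Q * cexp (ρ * t) = (∑ j, (a x j : ℂ) * I1 j) -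
        ∑ j, (a x j : ℂ) * (I1 j - A r * Z j ρ * cexp (ρ * (t + l x j : ℝ))) := by
      rw [← Finset.sum_sub_distrib, hQ, Finset.mul_sum, Finset.sum_mul]
      refine Finset.sum_congr rfl fun j _ => ?_
      have : cexp (ρ * (t + l x j : ℝ)) = cexp (ρ * l x j) * cexp (ρ * t) := by
        rw [← Complex.exp_add]
        congr 1
        push_cast
        ring
      rw [this]
      ring
    have e4 : ‖A r * Q * cexp (ρ * t)‖ = ‖A r‖ * ‖Q‖ * Real.exp (t / 2) := by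
      rw [norm_mul, norm_mul, norm_tw', (hF ρ hρF).2]
      congr 2
      ring
    have e5 : α * η ≤ ‖A r‖ * ‖Q‖ := mul_le_mul (hAa r) hρ hη.le (norm_nonneg _)
    have e6 : ‖∑ j, (a x j : ℂ) * (I1 j - A r * Z j ρ * cexp (ρ * (t + l x j : ℝ)))‖ ≤ n * (k * (1 + t + R)) := by
      refine (norm_sum_le _ _).trans ?_
      have h1 : ∀ j ∈ Finset.univ, ‖(a x j : ℂ) * (I1 j - A r * Z j ρ * cexp (ρ * (t + l x j : ℝ)))‖ ≤ k * (1 + t + R) := by
        intro j _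
        rw [norm_mul, Complex.norm_real, Real.norm_eq_abs]
        have h2 := hbd r j (t + l x j) (by linarith [(abs_le.1 (hl x j)).1])
        have h3 : K r * (1 + (t + l x j)) ≤ k * (1 + t + R) := by
          refine mul_le_mul (hKk r) (by linarith [(abs_le.1 (hl x j)).2]) ?_ hk
          linarith [(abs_le.1 (hl x j)).1]
        have h4 := mul_le_mul (ha x j) (h2.trans h3) (norm_nonneg _) zero_le_one
        rwa [one_mul] at h4
      refine (Finset.sum_le_card_nsmul _ _ _ h1).trans (le_of_eq ?_)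
      rw [Finset.card_univ, nsmul_eq_mul]
    have e7 : ‖A r * Q * cexp (ρ * t)‖ ≤ ‖∑ j, (a x j : ℂ) * I1 j‖ + n * (k * (1 + t + R)) := by
      rw [e3]
      exact (norm_sub_le _ _).trans (add_le_add le_rfl e6)
    rw [e4] at e7
    have e8 := mul_le_mul_of_nonneg_right e5 (Real.exp_pos (t / 2)).le
    rw [div_mul_eq_mul_div]
    refine div_le_div_of_nonneg_right ?_ hD0.le
    linarith
  obtain ⟨c, hc, hcore⟩ := coreU f hfm hfb (n * C) hav h hDK (α * η / 2 / D) (by positivity) hlow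
  obtain ⟨c1, hc1, hs⟩ := supU f hfm hfb c hc hcore
  obtain ⟨c2, hc2, hi⟩ := intU f hfm hfb c hc hcore
  refine ⟨min (c1 * D) (c2 * D), by positivity, ?_, ?_⟩
  · filter_upwards [hs] with t ht x
    obtain ⟨u, hu, hu2⟩ := ht x
    refine ⟨u, hu, ?_⟩
    simp only [hf] at hu2
    rw [le_div_iff₀ hD0] at hu2
    have h3 : min (c1 * D) (c2 * D) * Real.exp (u / 2) ≤ c1 * D * Real.exp (u / 2) :=
      mul_le_mul_of_nonneg_right (min_le_left _ _) (Real.exp_pos _).le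
    linarith
  · filter_upwards [hi] with t ht x
    have h3 := ht x
    have h4 : ∫ u in Icc t (t + Real.log t), max (f x u) 0 * Real.exp (-(u / 2)) =
        (∫ u in Icc t (t + Real.log t), max (Cb E (a x) (l x) u) 0 * Real.exp (-(u / 2))) / D := by
      rw [← integral_div]
      refine integral_congr_ae (ae_of_all _ fun u => ?_)
      simp only [hf]
      have : max (Cb E (a x) (l x) u / D) 0 = max (Cb E (a x) (l x) u) 0 / D := by
        rcases le_total (Cb E (a x) (l x) u) 0 with h | h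
        · rw [max_eq_right h, max_eq_right (div_nonpos_of_nonpos_of_nonneg h hD0.le), zero_div]
        · rw [max_eq_left h, max_eq_left (div_nonneg h hD0.le)]
      rw [this]
      ring
    rw [h4, le_div_iff₀ hD0] at h3
    exact (min_le_right _ _).trans h3

end

end Pool.Agent.W5h25.ML
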