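import Pool.Agent.W5h25.ML.GC
import Pool.Agent.W5h80.JO.A
import Pool.Agent.W5h80.JO.L5

/-! The functions of Mertens and Liouville are seen by the same kernels. -/

set_option autoImplicit false
set_option maxHeartbeats 4000000

open Complex MeasureTheory Filter Topology Set
open H313.TK
open Pool.Agent.W5h80.JO
open Pool.Agent.W5h38.ML (ll zeta_half_ne)

namespace Pool.Agent.W5h25.ML

noncomputable section

/-- the two signals -/
def Es (b : Bool) : ℝ → ℝ := if b then EL else mm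

/-- their factors -/
def Zs (b : Bool) (ρ : ℂ) : ℂ := if b then riemannZeta (2 * ρ) else 1

theorem mm_tw (ρ : ℂ) (hre : ρ.re = 1 / 2) : ∃ C : ℝ, 0 ≤ C ∧ ∀ t : ℝ, 0 ≤ t →
    ‖(∫ v : ℝ, (mm (t - v) : ℂ) * Sg (Ist ρ qc) v) - qh ρ / ρ * cexp (ρ * t)‖ ≤ C * (1 + t) := by
  have h0 : 0 < ρ.re := by rw [hre]; norm_num
  have h1 : ρ.re < 1 := by rw [hre]; norm_num
  obtain ⟨C, hC, hb⟩ := G1_asy ρ h0 h1
  refine ⟨C + 24, by positivity, fun t ht => ?_⟩
  rw [moeb (Ist_QQ qc_QQ ρ (by linarith)) t]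
  refine (hb t ht).trans ?_
  nlinarith

theorem EL_tw (ρ : ℂ) (hz : riemannZeta ρ = 0) (hre : ρ.re = 1 / 2) : ∃ C : ℝ, 0 ≤ C ∧ ∀ t : ℝ, 0 ≤ t →
    ‖(∫ v : ℝ, (EL (t - v) : ℂ) * Sg (Ist ρ qc) v) - qh ρ / ρ * riemannZeta (2 * ρ) * cexp (ρ * t)‖ ≤ C * (1 + t) := by
  have h0 : 0 < ρ.re := by rw [hre]; norm_num
  have h1 : ρ.re < 1 := by rw [hre]; norm_num
  have hne : ρ ≠ 1 / 2 := by
    rintro rfl
    exact zeta_half_ne hz
  have hρ : ρ ≠ 0 := by rintro rfl; simp at h0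
  have hzc : (zh : ℂ) ≠ 0 := by exact_mod_cast zh_ne
  obtain ⟨C1, hC1, hb1⟩ := ll_tw ρ hz hre
  obtain ⟨C2, hC2, hb2⟩ := bias (S_DK ρ hz h0 h1)
  refine ⟨C1 + C2, by positivity, fun t ht => ?_⟩
  have k1 := hb1 t ht
  have k2 := hb2 t
  have k3 : ∫ v : ℝ, cexp (-(1 / 2 : ℂ) * v) * Sg (Ist ρ qc) v = Kh (1 / 2) / (1 / 2 - ρ) := by
    rw [S_eq ρ h1]
    exact half_DK kc_DK ρ (by rw [abs_of_pos h0]; linarith) (Kh_zero ρ hz h0 h1) hne
  rw [k3, Kh_half] at k2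
  have k4 : (Real.exp (t / 2) : ℂ) / zh * (zh * qh (1 / 2) / (1 / 2 - ρ)) =
      Real.exp (t / 2) * (qh (1 / 2) / (1 / 2 - ρ)) := by
    field_simp
  rw [k4] at k2
  rw [EL_split (S_DK ρ hz h0 h1)]
  have e : (∫ v : ℝ, (ll (t - v) : ℂ) * Sg (Ist ρ qc) v) - (∫ v : ℝ, (bb (t - v) : ℂ) * Sg (Ist ρ qc) v) -
      qh ρ / ρ * riemannZeta (2 * ρ) * cexp (ρ * t) =
      ((∫ v : ℝ, (ll (t - v) : ℂ) * Sg (Ist ρ qc) v) -
        (Real.exp (t / 2) * (qh (1 / 2) / (1 / 2 - ρ)) + qh ρ / ρ * riemannZeta (2 * ρ) * cexp (ρ * t))) -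
      ((∫ v : ℝ, (bb (t - v) : ℂ) * Sg (Ist ρ qc) v) - Real.exp (t / 2) * (qh (1 / 2) / (1 / 2 - ρ))) := by ring
  rw [e]
  refine (norm_sub_le _ _).trans ((add_le_add k1 k2).trans ?_)
  have : 0 ≤ (C1 + C2) * t := by positivity
  nlinarith

theorem msig {J : Type*} (σ : J → Bool) : MSig (fun j => Es (σ j)) (fun j => Zs (σ j)) := by
  obtain ⟨C2, hC2, ha2⟩ := sig_EL.avg
  obtain ⟨B2, hB2, hb2⟩ := sig_EL.bd
  obtain ⟨C1, hC1, ha1⟩ := sig_mm.avg
  obtain ⟨B1, hB1, hb1⟩ := sig_mm.bd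
  refine ⟨fun j => ?_, ⟨B1 + B2, by positivity, fun j u => ?_⟩, ⟨C1 + C2, by positivity, fun j t ht => ?_⟩,
    fun ρ hz hre => ?_⟩
  · cases h : σ j
    · simp only [Es, Bool.false_eq_true, if_false]
      exact sig_mm.meas
    · simp only [Es, if_true]
      exact sig_EL.meas
  · have hE := Real.exp_pos u
    cases h : σ j
    · simp only [Es, Bool.false_eq_true, if_false]
      have := hb1 u
      nlinarith
    · simp only [Es, if_true]
      have := hb2 u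
      nlinarith
  · cases h : σ j
    · simp only [Es, Bool.false_eq_true, if_false]
      exact (ha1 t ht).trans (by linarith)
    · simp only [Es, if_true]
      exact (ha2 t ht).trans (by linarith)
  · have h0 : 0 < ρ.re := by rw [hre]; norm_num
    have h1 : ρ.re < 1 := by rw [hre]; norm_num
    have hρ : ρ ≠ 0 := by rintro rfl; simp at h0
    obtain ⟨K1, hK1, hk1⟩ := mm_tw ρ hre
    obtain ⟨K2, hK2, hk2⟩ := EL_tw ρ hz hre
    refine ⟨Sg (Ist ρ qc), S_DK ρ hz h0 h1, qh ρ / ρ, div_ne_zero (qh_ne ρ h0 h1) hρ, K1 + K2, by positivity,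
      fun j t ht => ?_⟩
    have hK1t : 0 ≤ K1 * (1 + t) := by positivity
    have hK2t : 0 ≤ K2 * (1 + t) := by positivity
    cases h : σ j
    · simp only [Es, Zs, Bool.false_eq_true, if_false, mul_one]
      exact (hk1 t ht).trans (by linarith)
    · simp only [Es, Zs, if_true]
      exact (hk2 t ht).trans (by linarith)

end

end Pool.Agent.W5h25.ML
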