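import Pool.Agent.W5h25.ML.CT
import Pool.Agent.W5h25.ML.MP

/-! The combined transforms do not vanish at all critical zeros. -/

set_option autoImplicit false
set_option maxHeartbeats 4000000

open Complex MeasureTheory Filter Topology Set

namespace Pool.Agent.W5h25.ML

noncomputable section

/-- lower bounds on vertical lines (proved in another file) -/
def LBs : Prop := ∀ (k : ℕ) (l : Fin k → ℝ), Function.Injective l → ∀ a b : Fin k → ℝ, (∃ i, a i ≠ 0 ∨ b i ≠ 0) →
  ∃ s1 : ℝ, 1 ≤ s1 ∧ ∀ s : ℝ, s1 ≤ s → ∃ c : ℝ, 0 < c ∧ ∀ t : ℝ,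
    c ≤ ‖∑ i, ((a i : ℂ) + b i * riemannZeta (2 * (s + t * I))) * cexp (l i * (s + t * I))‖

/-- the combined transform -/
def PP {J : Type*} [Fintype J] (σ : J → Bool) (a l : J → ℝ) (s : ℂ) : ℂ :=
  ∑ j, (a j : ℂ) * Zs (σ j) s * cexp (s * l j)

theorem Zs_norm (b : Bool) (s : ℂ) : ‖Zs b s‖ ≤ 1 + ‖riemannZeta (2 * s)‖ := by
  cases b
  · simp only [Zs, Bool.false_eq_true, if_false, norm_one]
    linarith [norm_nonneg (riemannZeta (2 * s))]
  · simp only [Zs, if_true]
    linarith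

theorem Zs_an (b : Bool) (s : ℂ) (hs : s ≠ 1 / 2) : AnalyticAt ℂ (Zs b) s := by
  cases b
  · have : Zs false = fun _ => (1 : ℂ) := by
      funext z
      simp [Zs]
    rw [this]
    exact analyticAt_const
  · have : Zs true = fun z => riemannZeta (2 * z) := by
      funext z
      simp [Zs]
    rw [this]
    have hU : IsOpen {z : ℂ | z ≠ 1 / 2} := isOpen_ne
    have hd : DifferentiableOn ℂ (fun z : ℂ => riemannZeta (2 * z)) {z : ℂ | z ≠ 1 / 2} := by
      intro z hz
      have h2 : 2 * z ≠ 1 := by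
        intro h
        apply hz
        show z = 1 / 2
        linear_combination (1 / 2 : ℂ) * h
      exact ((differentiableAt_riemannZeta h2).comp z (differentiableAt_id.const_mul 2)).differentiableWithinAt
    exact hd.analyticAt (hU.mem_nhds hs)

theorem PP_an {J : Type*} [Fintype J] (σ : J → Bool) (a l : J → ℝ) (s : ℂ) (hs : s ≠ 1 / 2) :
    AnalyticAt ℂ (PP σ a l) s := by
  unfold PP
  refine Finset.analyticAt_fun_sum _ fun j _ => ?_
  have h1 := Zs_an (σ j) s hs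
  have h2 : AnalyticAt ℂ (fun z : ℂ => cexp (z * l j)) s :=
    (Differentiable.analyticAt (by fun_prop) s)
  exact (analyticAt_const.mul h1).mul h2

theorem PP_up {J : Type*} [Fintype J] (σ : J → Bool) (a l : J → ℝ) (X : ℝ) : ∃ K : ℝ, 0 < K ∧
    ∀ s : ℂ, 0 ≤ s.re → s.re ≤ X → ‖PP σ a l s‖ ≤ K * (1 + ‖riemannZeta (2 * s)‖) := by
  refine ⟨∑ j, |a j| * Real.exp (X * |l j|) + 1, by positivity, fun s h0 h1 => ?_⟩
  unfold PP
  refine (norm_sum_le _ _).trans ?_
  have hz : 0 ≤ ‖riemannZeta (2 * s)‖ := norm_nonneg _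
  have h2 : ∑ j, ‖(a j : ℂ) * Zs (σ j) s * cexp (s * l j)‖ ≤ ∑ j, |a j| * Real.exp (X * |l j|) * (1 + ‖riemannZeta (2 * s)‖) := by
    refine Finset.sum_le_sum fun j _ => ?_
    rw [norm_mul, norm_mul, Complex.norm_real, Real.norm_eq_abs, Complex.norm_exp]
    have e : (s * (l j : ℂ)).re = s.re * l j := by simp
    rw [e]
    have h3 : Real.exp (s.re * l j) ≤ Real.exp (X * |l j|) := by
      refine Real.exp_le_exp.2 ?_
      calc s.re * l j ≤ s.re * |l j| := mul_le_mul_of_nonneg_left (le_abs_self _) h0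
        _ ≤ X * |l j| := mul_le_mul_of_nonneg_right h1 (abs_nonneg _)
    calc |a j| * ‖Zs (σ j) s‖ * Real.exp (s.re * l j) ≤ |a j| * (1 + ‖riemannZeta (2 * s)‖) * Real.exp (X * |l j|) :=
          mul_le_mul (mul_le_mul_of_nonneg_left (Zs_norm _ _) (abs_nonneg _)) h3 (Real.exp_pos _).le (by positivity)
      _ = _ := by ring
  rw [← Finset.sum_mul] at h2
  linarith

/-- grouping equal frequencies -/
theorem PP_low (hLB : LBs) {J : Type*} [Fintype J] (σ : J → Bool) (a l : J → ℝ)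
    (hl : ∀ i j, i ≠ j → σ i = σ j → l i ≠ l j) (ha : a ≠ 0) :
    ∃ s1 : ℝ, 1 ≤ s1 ∧ ∀ s : ℝ, s1 ≤ s → ∃ c : ℝ, 0 < c ∧ ∀ t : ℝ, c ≤ ‖PP σ a l ((s : ℂ) + t * I)‖ := by
  classical
  set Λ : Finset ℝ := Finset.univ.image l with hΛ
  set e := Λ.equivFin with he
  set A : ℝ → ℝ := fun x => ∑ j ∈ Finset.univ.filter (fun j => l j = x), if σ j then 0 else a j with hA
  set B : ℝ → ℝ := fun x => ∑ j ∈ Finset.univ.filter (fun j => l j = x), if σ j then a j else 0 with hB
  obtain ⟨j0, hj0⟩ : ∃ j, a j ≠ 0 := by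
    by_contra hcon
    push Not at hcon
    exact ha (funext hcon)
  have hmem : l j0 ∈ Λ := Finset.mem_image_of_mem l (Finset.mem_univ j0)
  have hne : A (l j0) ≠ 0 ∨ B (l j0) ≠ 0 := by
    cases hσ : σ j0
    · left
      simp only [hA]
      rw [Finset.sum_eq_single j0]
      · rw [hσ]
        simpa using hj0
      · intro j hj hjj
        rw [Finset.mem_filter] at hj
        by_cases h : σ j
        · rw [if_pos h]
        · exact absurd hj.2 (hl j j0 hjj (by rw [hσ]; simpa using h))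
      · intro h
        exact absurd (by simp) h
    · right
      simp only [hB]
      rw [Finset.sum_eq_single j0]
      · rw [hσ]
        simpa using hj0
      · intro j hj hjj
        rw [Finset.mem_filter] at hj
        by_cases h : σ j
        · exact absurd hj.2 (hl j j0 hjj (by rw [hσ]; exact h))
        · rw [if_neg h]
      · intro h
        exact absurd (by simp) h
  obtain ⟨s1, hs1, h1⟩ := hLB Λ.card (fun i => (e.symm i : ℝ))
    (fun i j h => e.symm.injective (Subtype.ext h)) (fun i => A (e.symm i)) (fun i => B (e.symm i))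
    ⟨e ⟨l j0, hmem⟩, by simpa using hne⟩
  refine ⟨s1, hs1, fun s hs => ?_⟩
  obtain ⟨c, hc, h2⟩ := h1 s hs
  refine ⟨c, hc, fun t => (h2 t).trans (le_of_eq ?_)⟩
  congr 1
  set z : ℂ := (s : ℂ) + t * I with hz
  have e1 : ∑ i, ((A (e.symm i) : ℂ) + B (e.symm i) * riemannZeta (2 * z)) * cexp ((e.symm i : ℝ) * z) =
      ∑ x ∈ Λ, ((A x : ℂ) + B x * riemannZeta (2 * z)) * cexp (x * z) := by
    rw [← Finset.sum_coe_sort Λ (fun x => ((A x : ℂ) + B x * riemannZeta (2 * z)) * cexp (x * z))]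
    exact Equiv.sum_comp e.symm (fun x : Λ => ((A x : ℂ) + B x * riemannZeta (2 * z)) * cexp ((x : ℝ) * z))
  rw [e1]
  unfold PP
  rw [← Finset.sum_fiberwise_of_maps_to (s := Finset.univ) (t := Λ) (g := l)
    (fun j _ => Finset.mem_image_of_mem l (Finset.mem_univ j))]
  refine Finset.sum_congr rfl fun x _ => ?_
  simp only [hA, hB]
  rw [Complex.ofReal_sum, Complex.ofReal_sum, Finset.sum_mul, ← Finset.sum_add_distrib, Finset.sum_mul]
  refine Finset.sum_congr rfl fun j hj => ?_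
  rw [Finset.mem_filter] at hj
  rw [hj.2, mul_comm (x : ℂ) z]
  cases hσ : σ j
  · simp [Zs]
  · simp [Zs]

theorem NZ (hLB : LBs) {J : Type*} [Fintype J] (σ : J → Bool) (a l : J → ℝ)
    (hl : ∀ i j, i ≠ j → σ i = σ j → l i ≠ l j) (ha : a ≠ 0) :
    ∃ ρ : ℂ, riemannZeta ρ = 0 ∧ ρ.re = 1 / 2 ∧ PP σ a l ρ ≠ 0 := by
  obtain ⟨s1, hs1, h1⟩ := PP_low hLB σ a l hl ha
  obtain ⟨c, hc, h2⟩ := h1 (max s1 4) (le_max_left _ _)
  obtain ⟨K, hK, h3⟩ := PP_up σ a l (2 * max s1 4)
  exact nonvanish (PP σ a l) (max s1 4) K c (le_max_right _ _) hK hc (PP_an σ a l) h3 h2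

end

end Pool.Agent.W5h25.ML
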